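import Pool.Agent.LibAC84H.Main

/-!
The algebra of the cycles `N_* B + g`, entries in orders of complex numbers: homologically and
Abel-Jacobi trivial combinations are torsion.
-/

open MvPolynomial Matrix
open scoped ComplexConjugate Classical

set_option linter.unusedSectionVars false

namespace Pool.Agent.LibAC84H

/-! ### bordered determinants -/

section border
variable {R D K : Type} [CommRing K] [Fintype R] [DecidableEq R] [Fintype D] [DecidableEq D]

/-- the Schur complement of the bordered matrix -/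
def schur (M N : Matrix R D K) (u v : R → K) : K :=
  (Mᵀ * N).det * (∑ i, u i * v i) -
    ∑ b, ∑ a, (∑ i, u i * N i a) * (Mᵀ * N).adjugate a b * (∑ k, M k b * v k)

theorem det_border (M N : Matrix R D K) (u v : R → K) :
    (Mᵀ * N).det * ((fromCols M (replicateCol Unit u))ᵀ *
      fromCols N (replicateCol Unit v)).det = (Mᵀ * N).det * schur M N u v := by
  unfold schur
  set A := Mᵀ * N with hA
  set q : Matrix D Unit K := fun b _ => ∑ k, M k b * v k with hq
  set r : Matrix Unit D K := fun _ a => ∑ i, u i * N i a with hr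
  set s : Matrix Unit Unit K := fun _ _ => ∑ i, u i * v i with hs
  have h1 : (fromCols M (replicateCol Unit u))ᵀ *
      fromCols N (replicateCol Unit v) = fromBlocks A q r s := by
    rw [transpose_fromCols, fromRows_mul_fromCols]
    congr 1
  have h2 : fromBlocks A q r s * fromBlocks 1 (-(A.adjugate * q)) 0 (A.det • (1 : Matrix Unit Unit K)) =
      fromBlocks A 0 r (A.det • s - r * A.adjugate * q) := by
    rw [fromBlocks_multiply]
    congr 1
    · simp
    · rw [Matrix.mul_neg, ← Matrix.mul_assoc, Matrix.mul_adjugate, Matrix.smul_mul,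
        Matrix.one_mul, Matrix.mul_smul, Matrix.mul_one, neg_add_cancel]
    · simp
    · rw [Matrix.mul_neg, ← Matrix.mul_assoc, Matrix.mul_smul, Matrix.mul_one]
      abel
  have h3 := congrArg Matrix.det h2
  rw [det_mul, det_fromBlocks_zero₂₁, det_fromBlocks_zero₁₂, det_one, one_mul,
    Matrix.det_unique (A.det • s - r * A.adjugate * q),
    Matrix.det_unique (A.det • (1 : Matrix Unit Unit K))] at h3
  rw [h1]
  rw [show (A.det • (1 : Matrix Unit Unit K)) default default = A.det by simp] at h3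
  rw [mul_comm, h3]
  congr 1
  rw [Matrix.sub_apply, Matrix.smul_apply, smul_eq_mul, Matrix.mul_apply]
  congr 1
  refine Finset.sum_congr rfl fun b _ => ?_
  rw [Matrix.mul_apply, Finset.sum_mul]

theorem schur_single (M N : Matrix R D K) (i : R) (v : R → K) :
    schur M N (Pi.single i 1) v = ∑ k, v k * ((Mᵀ * N).det * (if i = k then 1 else 0) -
      ∑ b, ∑ a, N i a * (Mᵀ * N).adjugate a b * M k b) := by
  unfold schur
  have e1 : ∑ i', (Pi.single i 1 : R → K) i' * v i' = v i := by
    rw [Finset.sum_eq_single i]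
    · rw [Pi.single_eq_same, one_mul]
    · intro i' _ hi'
      rw [Pi.single_eq_of_ne hi', zero_mul]
    · intro h; exact absurd (Finset.mem_univ i) h
  have e2 : ∀ a, ∑ i', (Pi.single i 1 : R → K) i' * N i' a = N i a := by
    intro a
    rw [Finset.sum_eq_single i]
    · rw [Pi.single_eq_same, one_mul]
    · intro i' _ hi'
      rw [Pi.single_eq_of_ne hi', zero_mul]
    · intro h; exact absurd (Finset.mem_univ i) h
  simp only [e1, e2, mul_sub, Finset.sum_sub_distrib]
  congr 1
  · rw [Finset.sum_eq_single i]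
    · rw [if_pos rfl]
      ring
    · intro k _ hk
      rw [if_neg (Ne.symm hk)]
      ring
    · intro h; exact absurd (Finset.mem_univ i) h
  · have e3 : ∀ k, v k * ∑ b, ∑ a, N i a * (Mᵀ * N).adjugate a b * M k b =
        ∑ b, ∑ a, N i a * (Mᵀ * N).adjugate a b * (M k b * v k) := by
      intro k
      rw [Finset.mul_sum]
      refine Finset.sum_congr rfl fun b _ => ?_
      rw [Finset.mul_sum]
      refine Finset.sum_congr rfl fun a _ => ?_
      ring
    simp only [e3]
    symm
    rw [Finset.sum_comm]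
    refine Finset.sum_congr rfl fun b _ => ?_
    rw [Finset.sum_comm]
    refine Finset.sum_congr rfl fun a _ => ?_
    rw [Finset.mul_sum]

end border

variable {C R D : Type} [DecidableEq C] [Fintype R] [DecidableEq R] [Fintype D] [DecidableEq D]

theorem conj_border (M N : Matrix R D ℂ) (u v : R → ℂ) :
    conj (Mᵀ * N).det * ((fromCols M (replicateCol Unit u))ᵀ *
      fromCols N (replicateCol Unit v)).det = conj (Mᵀ * N).det * schur M N u v := by
  by_cases h : (Mᵀ * N).det = 0
  · rw [h, map_zero, zero_mul, zero_mul]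
  · rw [mul_left_cancel₀ h (det_border M N u v)]

theorem prC_of_blkR {ρ : R → C} {τ : D → C} {M : Matrix R D ℂ} (h : BlkR ρ τ M) :
    prC ρ τ M = M := by
  ext1 i a
  by_cases h1 : ρ i = τ a
  · rw [prC_pos _ h1]
  · rw [prC_neg _ h1, h i a h1]

theorem blk_real {o : Ord C} {ρ : R → C} {τ : D → C} {N : Matrix R D (ℤ × ℤ)}
    (hN : Blk o ρ τ N) {i : R} (a : D) (hi : ¬ o.cm (ρ i)) :
    conj (toC o ρ N i a) = toC o ρ N i a := by
  rw [toC, Ord.cx, hN.snd a hi]
  simp

theorem mx_conj {o : Ord C} {ρ : R → C} {τ : D → C} {M N : Matrix R D (ℤ × ℤ)}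
    (hM : Blk o ρ τ M) (hN : Blk o ρ τ N) :
    mx o τ τ ((toC o ρ M)ᵀ * toC o ρ N) ((cj (toC o ρ M))ᵀ * cj (toC o ρ N)) =
      ((toC o ρ M)ᵀ * toC o ρ N).map conj := by
  ext1 a b
  rw [Matrix.map_apply]
  by_cases h : τ a = τ b
  · by_cases hc : o.cm (τ a)
    · rw [mx_cm _ _ h hc, Matrix.mul_apply, Matrix.mul_apply, map_sum]
      refine Finset.sum_congr rfl fun i _ => ?_
      rw [transpose_apply, transpose_apply, map_mul, cj_apply, cj_apply]
    · rw [mx_re _ _ h hc, Matrix.mul_apply, map_sum]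
      refine Finset.sum_congr rfl fun i _ => ?_
      rw [transpose_apply, map_mul]
      by_cases h1 : ρ i = τ a
      · have h2 : ¬ o.cm (ρ i) := by rw [h1]; exact hc
        rw [blk_real hM a h2, blk_real hN b h2]
      · rw [blkR_toC hM i a h1, zero_mul, map_zero, zero_mul]
  · rw [mx_neg _ _ h]
    symm
    rw [Matrix.mul_apply, map_sum]
    refine Finset.sum_eq_zero fun i _ => ?_
    rw [transpose_apply]
    by_cases h1 : ρ i = τ a
    · rw [blkR_toC hN i b (fun h2 => h (h1.symm.trans h2)), mul_zero, map_zero]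
    · rw [blkR_toC hM i a h1, zero_mul, map_zero]

theorem det_conj (A : Matrix D D ℂ) : (A.map conj).det = conj A.det := by
  have h := RingHom.map_det (starRingEnd ℂ) A
  rw [RingHom.mapMatrix_apply] at h
  exact h.symm

section B
variable {o : Ord C} {ρ : R → C} {τ : D → C} {M N : Matrix R D (ℤ × ℤ)}
  (hM : Blk o ρ τ M) (hN : Blk o ρ τ N)
include hM hN

theorem ev_H : ev (toC o ρ M) (cj (toC o ρ M))
    (sub (fun t s => subA (toC o ρ N) (cj (toC o ρ N)) s t) (Hpol ℂ o τ)) =
      conj ((toC o ρ M)ᵀ * toC o ρ N).det * ((toC o ρ M)ᵀ * toC o ρ N).det := by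
  rw [eval_subT, eval_H, mx_conj hM hN, det_conj, prC_transpose_mul (blkR_toC hN),
    prC_of_blkR (blkR_toC hM), mul_comm]

theorem ev_K (a b : D) : ev (toC o ρ M) (cj (toC o ρ M))
    (sub (fun t s => subA (toC o ρ N) (cj (toC o ρ N)) s t) (Kpol ℂ o τ a b)) =
      conj ((toC o ρ M)ᵀ * toC o ρ N).det * ((toC o ρ M)ᵀ * toC o ρ N).adjugate a b := by
  rw [eval_subT, eval_K, mx_conj hM hN, det_conj, prC_transpose_mul (blkR_toC hN),
    prC_of_blkR (blkR_toC hM)]

theorem ev_Bpol (c : C) (i k : R) (hk : ρ k = c) :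
    ev (toC o ρ M) (cj (toC o ρ M)) (Bpol o τ c (toC o ρ N) (cj (toC o ρ N)) i k) =
      conj ((toC o ρ M)ᵀ * toC o ρ N).det *
        (((toC o ρ M)ᵀ * toC o ρ N).det * (if i = k then 1 else 0) -
          ∑ b, ∑ a, toC o ρ N i a * ((toC o ρ M)ᵀ * toC o ρ N).adjugate a b * toC o ρ M k b) := by
  rw [Bpol, LibAC84H.ev_sub, mul_sub]
  congr 1
  · by_cases h : i = k
    · rw [if_pos h, if_pos h, ev_H hM hN, mul_one]
    · rw [if_neg h, if_neg h, ev_zero, mul_zero, mul_zero]
  · rw [ev_sum, Finset.mul_sum]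
    refine Finset.sum_congr rfl fun b _ => ?_
    rw [ev_sum, Finset.mul_sum]
    refine Finset.sum_congr rfl fun a _ => ?_
    by_cases hb : τ b = c
    · rw [if_pos hb, ev_mul, ev_mul, ev_C, ev_K hM hN]
      have : ev (toC o ρ M) (cj (toC o ρ M)) (X (Sum.inl (k, b))) = toC o ρ M k b := by
        simp [ev, pt2]
      rw [this]
      ring
    · rw [if_neg hb, ev_zero, blkR_toC hM k b (fun h => hb (h.symm.trans hk)), mul_zero,
        mul_zero]

end B

theorem inv_B {o : Ord C} {ρ : R → C} {τ : D → C} {N N' : Matrix R D ℂ} (hN : BlkR ρ τ N)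
    (hN' : BlkR ρ τ N') (c : C) (i k : R) (hk : ρ k = c) :
    Inv o ρ τ (Bpol o τ c N N' i k) := by
  unfold Bpol
  refine Inv.sub ?_ ?_
  · split_ifs
    · exact Inv.subT hN hN' inv_H
    · exact Inv.zero
  · refine Inv.sum _ fun b _ => Inv.sum _ fun a _ => ?_
    split_ifs with hb
    · exact (inv_C _).mul ((Inv.X (hk.trans hb.symm)).mul (Inv.subT hN hN' (inv_K a b)))
    · exact Inv.zero

/-! ### families of cycle classes -/

/-- the element `x` of `G c`, as an element of `G c'` if `c = c'`, and `0` otherwise -/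
def cst {G : C → Type} [∀ c, AddCommGroup (G c)] (c c' : C) (x : G c) : G c' :=
  if h : c = c' then h ▸ x else 0

/-- the properties of the classes `F N g` of the cycles `N_* B + g` -/
structure Fam (o : Ord C) {G : C → Type} [∀ c, AddCommGroup (G c)] (w : ∀ c, G c →+ G c)
    {H : Type} [AddCommGroup H] (ρ : R → C) (τ : D → C)
    (F : Matrix R D (ℤ × ℤ) → (∀ i, G (ρ i)) → H) : Prop where
  ww : ∀ c, o.cm c → ∀ x : G c, w c (w c x) = o.t c • w c x - o.n c • x
  par : ∀ N, Blk o ρ τ N → ∀ a (u v : R → ℤ × ℤ), Sup o ρ (τ a) u → Sup o ρ (τ a) v → ∀ g,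
    F (N.updateCol a (u + v)) g + F (N.updateCol a (u - v)) g =
      (2 : ℤ) • F (N.updateCol a u) g + (2 : ℤ) • F (N.updateCol a v) g
  col : ∀ N, Blk o ρ τ N → ∀ a b, a ≠ b → τ a = τ b → ∀ g,
    F (N.updateCol b (fun i => N i b + N i a)) g = F N g
  colw : ∀ N, Blk o ρ τ N → ∀ a b, a ≠ b → τ a = τ b → o.cm (τ a) → ∀ g,
    F (N.updateCol b (fun i => N i b + o.mw (τ a) (N i a))) g = F N g
  deg : ∀ a, o.cm (τ a) → ∃ δ : ℕ, ∀ N, Blk o ρ τ N → ∀ g,
    F (N.updateCol a (fun i => o.mw (τ a) (N i a))) g = δ • F N g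
  tr : ∀ N, Blk o ρ τ N → ∀ a (x : G (τ a)), F N (fun i =>
    (N i a).1 • cst (τ a) (ρ i) x + (N i a).2 • cst (τ a) (ρ i) (w (τ a) x)) = F N 0
  add : ∀ N, Blk o ρ τ N → ∀ g h, IsOfFinAddOrder (F N (g + h) - F N g - F N h + F N 0)

section fam
variable {o : Ord C} {G : C → Type} [∀ c, AddCommGroup (G c)] {w : ∀ c, G c →+ G c}
  {H : Type} [AddCommGroup H] {ρ : R → C} {τ : D → C}
  {F : Matrix R D (ℤ × ℤ) → (∀ i, G (ρ i)) → H} (hF : Fam o w ρ τ F) (μ : H →+ ℚ)

include hF in
theorem Fam.good (g : ∀ i, G (ρ i)) : Good o ρ τ (fun N => μ (F N g)) where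
  par := by
    intro N hN a u v hu hv
    have := congrArg μ (hF.par N hN a u v hu hv g)
    rw [map_add, map_add, map_zsmul, map_zsmul] at this
    simpa using this
  col := by
    intro N hN a b hab h
    exact congrArg μ (hF.col N hN a b hab h g)
  colw := by
    intro N hN a b hab h hc
    exact congrArg μ (hF.colw N hN a b hab h hc g)
  deg := by
    intro a ha
    obtain ⟨δ, hδ⟩ := hF.deg a ha
    refine ⟨δ, fun N hN => ?_⟩
    rw [hδ N hN g, map_nsmul, nsmul_eq_mul]

/-- the functions `f N = μ (F N g) - μ (F N 0)` -/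
def phi (F : Matrix R D (ℤ × ℤ) → (∀ i, G (ρ i)) → H) (μ : H →+ ℚ) (N : Matrix R D (ℤ × ℤ))
    (g : ∀ i, G (ρ i)) : ℚ := μ (F N g) - μ (F N 0)

include hF in
/-- the function `N ↦ phi N g` is good -/
theorem good_phi (g : ∀ i, G (ρ i)) : Good o ρ τ (fun N => phi F μ N g) where
  par := by
    intro N hN a u v hu hv
    have h1 := (hF.good μ g).par N hN a u v hu hv
    have h2 := (hF.good μ 0).par N hN a u v hu hv
    unfold phi
    linarith
  col := by
    intro N hN a b hab h
    have h1 := (hF.good μ g).col N hN a b hab h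
    have h2 := (hF.good μ 0).col N hN a b hab h
    unfold phi
    rw [h1, h2]
  colw := by
    intro N hN a b hab h hc
    have h1 := (hF.good μ g).colw N hN a b hab h hc
    have h2 := (hF.good μ 0).colw N hN a b hab h hc
    unfold phi
    rw [h1, h2]
  deg := by
    intro a ha
    obtain ⟨δ, hδ⟩ := hF.deg a ha
    refine ⟨δ, fun N hN => ?_⟩
    unfold phi
    rw [hδ N hN g, hδ N hN 0, map_nsmul, map_nsmul, nsmul_eq_mul, nsmul_eq_mul, mul_sub]

theorem main_H {J : Type} (s : Finset J) (m : J → ℤ) (N : J → Matrix R D (ℤ × ℤ))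
    (hN : ∀ j ∈ s, Blk o ρ τ (N j))
    (hom : ∀ M, Blk o ρ τ M →
      ∑ j ∈ s, m j * Complex.normSq ((toC o ρ M)ᵀ * toC o ρ (N j)).det = 0)
    {f : Matrix R D (ℤ × ℤ) → ℚ} (hf : Good o ρ τ f) : ∑ j ∈ s, (m j : ℚ) * f (N j) = 0 := by
  obtain ⟨P, hP, hP'⟩ := hf.exists_poly
  have hzero : ∑ j ∈ s, MvPolynomial.C (m j : ℂ) *
      LibAC84H.sub (fun t s => subA (toC o ρ (N j)) (cj (toC o ρ (N j))) s t) (Hpol ℂ o τ) =
      0 := by
    refine zero_of_blk (o := o) (ρ := ρ) (τ := τ) (Inv.sum _ fun j hj => (inv_C _).mul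
      (Inv.subT (blkR_toC (hN j hj)) (blkR_cj (blkR_toC (hN j hj))) inv_H)) fun M hM => ?_
    rw [ev_sum]
    have h1 := congrArg (Complex.ofReal) (hom M hM)
    rw [Complex.ofReal_zero, Complex.ofReal_sum] at h1
    rw [← h1]
    refine Finset.sum_congr rfl fun j hj => ?_
    rw [ev_mul, ev_C, ev_H hM (hN j hj), Complex.ofReal_mul, Complex.normSq_eq_conj_mul_self]
    simp
  have h4 := congrArg (fis P) hzero
  rw [fis_sum_right, fis_zero_right] at h4
  have h5 : ∀ j ∈ s, fis P (MvPolynomial.C (m j : ℂ) *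
      LibAC84H.sub (fun t s => subA (toC o ρ (N j)) (cj (toC o ρ (N j))) s t) (Hpol ℂ o τ)) =
      (((m j : ℚ) * f (N j) : ℚ) : ℂ) * fis (Hpol ℂ o τ) (Hpol ℂ o τ) := by
    intro j hj
    rw [← smul_eq_C_mul, fis_smul_right, (hf.eqv hP hP').fis_H _ _ (blkR_toC (hN j hj))
      (blkR_cj (blkR_toC (hN j hj))), hP (N j) (hN j hj)]
    push_cast
    ring
  rw [Finset.sum_congr rfl h5, ← Finset.sum_mul] at h4
  rcases mul_eq_zero.1 h4 with h6 | h6
  · exact_mod_cast h6
  · exfalso
    rw [← map_Hpol (algebraMap ℚ ℂ), fis_map] at h6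
    have h7 : (algebraMap ℚ ℂ) (fis (Hpol ℚ o τ) (Hpol ℚ o τ)) = (algebraMap ℚ ℂ) 0 := by
      rw [h6, map_zero]
    exact (fis_self_pos _ (Hpol_ne_zero o τ)).ne' ((algebraMap ℚ ℂ).injective h7)

include hF in
theorem phi_add (N : Matrix R D (ℤ × ℤ)) (hN : Blk o ρ τ N) (g h : ∀ i, G (ρ i)) :
    phi F μ N (g + h) = phi F μ N g + phi F μ N h := by
  have h1 := map_torsion μ (hF.add N hN g h)
  rw [map_add, map_sub, map_sub] at h1
  unfold phi
  linarith

theorem phi_zero (N : Matrix R D (ℤ × ℤ)) : phi F μ N 0 = 0 := sub_self _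

include hF in
/-- `phi` as a homomorphism -/
theorem phi_hom (N : Matrix R D (ℤ × ℤ)) (hN : Blk o ρ τ N) :
    ∃ l : (∀ i, G (ρ i)) →+ ℚ, ∀ g, l g = phi F μ N g :=
  ⟨{ toFun := phi F μ N, map_zero' := phi_zero μ N, map_add' := phi_add hF μ N hN },
    fun _ => rfl⟩

theorem cst_self (c : C) (x : G c) : cst c c x = x := by
  unfold cst
  rw [dif_pos rfl]

theorem cst_ne {c c' : C} (h : c ≠ c') (x : G c) : cst c c' x = 0 := dif_neg h

theorem cst_add (c c' : C) (x y : G c) : cst c c' (x + y) = cst c c' x + cst c c' y := by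
  by_cases h : c = c'
  · subst h
    rw [cst_self, cst_self, cst_self]
  · rw [cst_ne h, cst_ne h, cst_ne h, add_zero]

theorem cst_cst {c c' : C} (h : c = c') (x : G c) : cst c' c (cst c c' x) = x := by
  subst h
  rw [cst_self, cst_self]

/-- the element `h` of `G c` in the row `i`, as a homomorphism -/
def row (ρ : R → C) (c : C) (i : R) : G c →+ ∀ i, G (ρ i) where
  toFun h := Pi.single i (cst c (ρ i) h)
  map_zero' := by
    have : cst c (ρ i) (0 : G c) = 0 := by
      by_cases h : c = ρ i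
      · subst h; exact cst_self _ _
      · exact cst_ne h _
    rw [this, Pi.single_zero]
  map_add' x y := by
    rw [cst_add]
    exact Pi.single_add _ _ _

theorem row_apply (c : C) (i : R) (h : G c) : row ρ c i h = Pi.single i (cst c (ρ i) h) := rfl

theorem row_ne {c : C} {i : R} (hi : ρ i ≠ c) (h : G c) : row ρ c i h = 0 := by
  rw [row_apply, cst_ne (Ne.symm hi), Pi.single_zero]

include hF in
/-- the relation -/
theorem rel (M : Matrix R D (ℤ × ℤ)) (hM : Blk o ρ τ M) (a : D) (h : G (τ a)) :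
    ∑ i, ((M i a).1 * phi F μ M (row ρ (τ a) i h) +
      (M i a).2 * phi F μ M (row ρ (τ a) i (w (τ a) h))) = 0 := by
  obtain ⟨l, hl⟩ := phi_hom hF μ M hM
  have h1 : ∀ i, ((M i a).1 * phi F μ M (row ρ (τ a) i h) +
      (M i a).2 * phi F μ M (row ρ (τ a) i (w (τ a) h))) =
      l (Pi.single i ((M i a).1 • cst (τ a) (ρ i) h + (M i a).2 • cst (τ a) (ρ i) (w (τ a) h))) := by
    intro i
    rw [Pi.single_add, map_add, Pi.single_smul, Pi.single_smul, map_zsmul, map_zsmul,
      zsmul_eq_mul, zsmul_eq_mul, ← hl, ← hl]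
    rfl
  rw [Finset.sum_congr rfl fun i _ => h1 i, ← map_sum, hl]
  have h3 : ∑ i, (Pi.single i ((M i a).1 • cst (τ a) (ρ i) h +
      (M i a).2 • cst (τ a) (ρ i) (w (τ a) h)) : ∀ i, G (ρ i)) =
      fun i => (M i a).1 • cst (τ a) (ρ i) h + (M i a).2 • cst (τ a) (ρ i) (w (τ a) h) := by
    rw [Finset.univ_sum_single]
  rw [h3]
  unfold phi
  rw [hF.tr M hM a h, sub_self]

include hF in
/-- the polynomials of the functions `N ↦ phi N (h in the row i)` -/
theorem exists_pol (c : C) : ∃ P : R → G c →+ MvPolynomial (Vr R D) ℂ,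
    (∀ i h, Eqv o ρ τ (P i h)) ∧ (∀ i h, Inv o ρ τ (P i h)) ∧
    (∀ i, ρ i ≠ c → ∀ h, P i h = 0) ∧
    ∀ i h (M : Matrix R D (ℤ × ℤ)), Blk o ρ τ M →
      ev (toC o ρ M) (cj (toC o ρ M)) (P i h) = ((phi F μ M (row ρ c i h) : ℚ) : ℂ) := by
  have hex : ∀ (i : R) (h : G c), ∃ P : MvPolynomial (Vr R D) ℂ,
      (∀ N : Matrix R D (ℤ × ℤ), Blk o ρ τ N →
        ev (toC o ρ N) (cj (toC o ρ N)) P = ((phi F μ N (row ρ c i h) : ℚ) : ℂ)) ∧
      Inv o ρ τ P := fun i h => (good_phi hF μ (row ρ c i h)).exists_poly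
  choose P hP hP' using hex
  refine ⟨fun i => AddMonoidHom.mk' (P i) fun h h' => ?_, fun i h => ?_, hP', fun i hi h => ?_,
    fun i h M hM => hP i h M hM⟩
  · rw [← sub_eq_zero]
    refine zero_of_blk ((hP' i (h + h')).sub ((hP' i h).add (hP' i h'))) fun M hM => ?_
    rw [LibAC84H.ev_sub, LibAC84H.ev_add, hP i _ M hM, hP i _ M hM, hP i _ M hM, map_add,
      phi_add hF μ M hM]
    push_cast
    ring
  · exact (good_phi hF μ (row ρ c i h)).eqv (hP i h) (hP' i h)
  · refine zero_of_blk (hP' i h) fun M hM => ?_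
    change ev (toC o ρ M) (cj (toC o ρ M)) (P i h) = 0
    rw [hP i h M hM, row_ne hi, phi_zero, Rat.cast_zero]

include hF in
/-- the polynomials which are linear over the order -/
theorem exists_pol_plus (c : C) : ∃ P : R → G c →+ MvPolynomial (Vr R D) ℂ,
    (∀ i h, Eqv o ρ τ (P i h)) ∧
    (∀ i, ρ i ≠ c → ∀ h, P i h = 0) ∧
    (∀ h a, τ a = c → ∑ i, X (Sum.inl (i, a)) * P i h = 0) ∧
    (o.cm c → ∀ i h, P i (w c h) = MvPolynomial.C (o.ω c) * P i h) ∧
    ∀ i h (M : Matrix R D (ℤ × ℤ)), Blk o ρ τ M →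
      ev (toC o ρ M) (cj (toC o ρ M)) (P i h) =
        if o.cm c then (o.ω c - conj (o.ω c))⁻¹ * (((phi F μ M (row ρ c i (w c h)) : ℚ) : ℂ) -
          conj (o.ω c) * ((phi F μ M (row ρ c i h) : ℚ) : ℂ))
        else ((phi F μ M (row ρ c i h) : ℚ) : ℂ) := by
  obtain ⟨P, hE, hI, h0, hP⟩ := exists_pol hF μ c
  by_cases hc : o.cm c
  · refine ⟨fun i => AddMonoidHom.mk' (fun h => MvPolynomial.C ((o.ω c - conj (o.ω c))⁻¹) *
      (P i (w c h) - MvPolynomial.C (conj (o.ω c)) * P i h)) fun h h' => ?_, fun i h => ?_,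
      fun i hi h => ?_, fun h a ha => ?_, fun _ i h => ?_, fun i h M hM => ?_⟩
    · simp only [map_add]
      ring
    · exact (((hE i (w c h)).sub ((hE i h).smul _)).smul _)
    · rw [AddMonoidHom.mk'_apply, h0 i hi, h0 i hi]
      ring
    · simp only [AddMonoidHom.mk'_apply]
      refine zero_of_blk (o := o) (ρ := ρ) (τ := τ) ?_ fun M hM => ?_
      · refine Inv.sum _ fun i _ => ?_
        by_cases hi : ρ i = c
        · exact (Inv.X (hi.trans ha.symm)).mul
            ((inv_C _).mul ((hI i _).sub ((inv_C _).mul (hI i h))))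
        · rw [h0 i hi, h0 i hi, mul_zero, sub_zero, mul_zero, mul_zero]
          exact Inv.zero
      · subst ha
        have r1 := rel hF μ M hM a h
        have r2 := rel hF μ M hM a (w (τ a) h)
        have h1 := congrArg (Rat.cast : ℚ → ℂ) r1
        have h2 := congrArg (Rat.cast : ℚ → ℂ) r2
        simp only [Rat.cast_sum, Rat.cast_add, Rat.cast_mul, Rat.cast_intCast, Rat.cast_zero]
          at h1 h2
        rw [ev_sum]
        have h3 : ∀ i, ev (toC o ρ M) (cj (toC o ρ M)) (X (Sum.inl (i, a)) *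
            (MvPolynomial.C ((o.ω (τ a) - conj (o.ω (τ a)))⁻¹) *
              (P i (w (τ a) h) - MvPolynomial.C (conj (o.ω (τ a))) * P i h))) =
            (o.ω (τ a) - conj (o.ω (τ a)))⁻¹ *
            (((M i a).1 * ((phi F μ M (row ρ (τ a) i (w (τ a) h)) : ℚ) : ℂ) +
              (M i a).2 * ((phi F μ M (row ρ (τ a) i (w (τ a) (w (τ a) h))) : ℚ) : ℂ)) -
              conj (o.ω (τ a)) * ((M i a).1 * ((phi F μ M (row ρ (τ a) i h) : ℚ) : ℂ) +
              (M i a).2 * ((phi F μ M (row ρ (τ a) i (w (τ a) h)) : ℚ) : ℂ))) := by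
          intro i
          rw [ev_mul, ev_mul, ev_C, LibAC84H.ev_sub, ev_mul, ev_C, hP i _ M hM, hP i _ M hM]
          have h4 : ev (toC o ρ M) (cj (toC o ρ M)) (X (Sum.inl (i, a))) =
              (M i a).1 + (M i a).2 * o.ω (τ a) := by
            have : ev (toC o ρ M) (cj (toC o ρ M)) (X (Sum.inl (i, a))) = toC o ρ M i a := by
              simp [ev, pt2]
            rw [this]
            by_cases hi : ρ i = τ a
            · rw [toC, Ord.cx, hi]
            · rw [blkR_toC hM i a hi, hM.zero hi]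
              simp
          rw [h4]
          obtain ⟨l, hl⟩ := phi_hom hF μ M hM
          have h5 : phi F μ M (row ρ (τ a) i (w (τ a) (w (τ a) h))) =
              o.t (τ a) * phi F μ M (row ρ (τ a) i (w (τ a) h)) -
                o.n (τ a) * phi F μ M (row ρ (τ a) i h) := by
            rw [hF.ww (τ a) hc h, ← hl, ← hl, ← hl, map_sub, map_sub, map_zsmul, map_zsmul,
              map_zsmul, map_zsmul, zsmul_eq_mul, zsmul_eq_mul]
          rw [h5]
          push_cast
          have ht := o.ht (τ a)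
          have hn := o.hn (τ a)
          rw [← ht, ← hn]
          ring
        rw [Finset.sum_congr rfl fun i _ => h3 i, ← Finset.mul_sum, Finset.sum_sub_distrib,
          ← Finset.mul_sum, h1, h2]
        ring
    · simp only [AddMonoidHom.mk'_apply]
      rw [hF.ww c hc h, map_sub, map_zsmul, map_zsmul, zsmul_eq_mul, zsmul_eq_mul]
      have e1 : ((o.t c : ℤ) : MvPolynomial (Vr R D) ℂ) = MvPolynomial.C (o.ω c + conj (o.ω c)) := by
        rw [o.ht]
        simp
      have e2 : ((o.n c : ℤ) : MvPolynomial (Vr R D) ℂ) = MvPolynomial.C (o.ω c * conj (o.ω c)) := by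
        rw [o.hn]
        simp
      rw [e1, e2, map_add, map_mul]
      ring
    · rw [if_pos hc, AddMonoidHom.mk'_apply, ev_mul, ev_C, LibAC84H.ev_sub, ev_mul, ev_C,
        hP i _ M hM, hP i _ M hM]
  · refine ⟨P, hE, h0, fun h a ha => ?_, fun h' => absurd h' hc, fun i h M hM => ?_⟩
    · refine zero_of_blk (o := o) (ρ := ρ) (τ := τ) ?_ fun M hM => ?_
      · refine Inv.sum _ fun i _ => ?_
        by_cases hi : ρ i = c
        · exact (Inv.X (hi.trans ha.symm)).mul (hI i h)
        · rw [h0 i hi, mul_zero]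
          exact Inv.zero
      · subst ha
        have r1 := rel hF μ M hM a h
        have h1 := congrArg (Rat.cast : ℚ → ℂ) r1
        simp only [Rat.cast_sum, Rat.cast_add, Rat.cast_mul, Rat.cast_intCast, Rat.cast_zero]
          at h1
        rw [ev_sum, ← h1]
        refine Finset.sum_congr rfl fun i _ => ?_
        rw [ev_mul, hP i _ M hM]
        have : ev (toC o ρ M) (cj (toC o ρ M)) (X (Sum.inl (i, a))) = toC o ρ M i a := by
          simp [ev, pt2]
        rw [this]
        by_cases hi : ρ i = τ a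
        · have h2 : ¬ o.cm (ρ i) := by rw [hi]; exact hc
          rw [toC, Ord.cx, hM.snd a h2]
          simp
        · rw [blkR_toC hM i a hi, hM.zero hi]
          simp
    · rw [if_neg hc, hP i h M hM]

include hF in
theorem main_AJ {J : Type} (s : Finset J) (m : J → ℤ) (N : J → Matrix R D (ℤ × ℤ))
    (g : J → ∀ i, G (ρ i)) (hN : ∀ j ∈ s, Blk o ρ τ (N j)) (c : C)
    (AJ : ∀ M, Blk o ρ τ M → ∀ i, ρ i = c →
      ∀ l : G c →+ ℂ, (o.cm c → ∀ x, l (w c x) = o.ω c * l x) →
      ∑ j ∈ s, m j * (conj ((toC o ρ M)ᵀ * toC o ρ (N j)).det *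
        schur (toC o ρ M) (toC o ρ (N j)) (Pi.single i 1)
          (fun k => l (cst (ρ k) c (g j k)))) = 0) :
    ∑ j ∈ s, ∑ k, (if ρ k = c then (m j : ℚ) * phi F μ (N j) (Pi.single k (g j k)) else 0) = 0 := by
  obtain ⟨P, hE, hP0, hrel, hlin, hP⟩ := exists_pol_plus hF μ c
  have hNR : ∀ j ∈ s, BlkR ρ τ (toC o ρ (N j)) := fun j hj => blkR_toC (hN j hj)
  have hNR' : ∀ j ∈ s, BlkR ρ τ (cj (toC o ρ (N j))) := fun j hj => blkR_cj (hNR j hj)
  -- the elements of `G c`
  set x : J → R → G c := fun j k => cst (ρ k) c (g j k) with hx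
  set B : J → R → R → MvPolynomial (Vr R D) ℂ := fun j i k =>
    Bpol o τ c (toC o ρ (N j)) (cj (toC o ρ (N j))) i k with hB
  set e : J → R → ℂ := fun j k => ev (toC o ρ (N j)) (cj (toC o ρ (N j))) (P k (x j k)) with he
  have hkey : ∀ j ∈ s, ∀ k, ((kap o τ c : ℚ) : ℂ) * e j k =
      ∑ i, fis (P i (x j k)) (B j i k) := fun j hj k =>
    (fis_AJ (P := fun i => P i (x j k)) (fun i => hE i _) (fun i hi => hP0 i hi _)
      (fun a ha => hrel (x j k) a ha) _ _ (hNR j hj) (hNR' j hj) k).symm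
  have hsum : ((kap o τ c : ℚ) : ℂ) * ∑ j ∈ s, ∑ k, (if ρ k = c then (m j : ℂ) * e j k else 0) =
      ∑ i, ∑ j ∈ s, ∑ k, (if ρ k = c then (m j : ℂ) * fis (P i (x j k)) (B j i k) else 0) := by
    rw [Finset.mul_sum, Finset.sum_comm]
    refine Finset.sum_congr rfl fun j hj => ?_
    rw [Finset.mul_sum, Finset.sum_comm]
    refine Finset.sum_congr rfl fun k _ => ?_
    by_cases hk : ρ k = c
    · simp only [if_pos hk]
      rw [mul_left_comm, hkey j hj k, Finset.mul_sum]
    · simp only [if_neg hk]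
      simp
  have hzero : ∀ i, ∑ j ∈ s, ∑ k,
      (if ρ k = c then (m j : ℂ) * fis (P i (x j k)) (B j i k) else 0) = 0 := by
    intro i
    by_cases hi : ρ i = c
    · set S : Finset (Vr R D →₀ ℕ) := s.biUnion fun j => Finset.univ.biUnion fun k =>
        (B j i k).support with hS
      have h1 : ∀ j ∈ s, ∀ k, fis (P i (x j k)) (B j i k) =
          ∑ α ∈ S, fac α * coeff α (P i (x j k)) * coeff α (B j i k) := by
        intro j hj k
        refine fis_eq _ _ S fun α hα => ?_
        rw [hS, Finset.mem_biUnion]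
        exact ⟨j, hj, Finset.mem_biUnion.2 ⟨k, Finset.mem_univ k, hα⟩⟩
      have h2 : ∀ α, ∑ j ∈ s, ∑ k, (if ρ k = c then (m j : ℂ) *
          (fac α * coeff α (P i (x j k)) * coeff α (B j i k)) else 0) = 0 := by
        intro α
        obtain ⟨l, hl⟩ : ∃ l : G c →+ ℂ, ∀ h, l h = coeff α (P i h) :=
          ⟨(MvPolynomial.lcoeff ℂ α).toAddMonoidHom.comp (P i), fun _ => rfl⟩
        have hll : o.cm c → ∀ x, l (w c x) = o.ω c * l x := by
          intro hc x
          rw [hl, hl, hlin hc, coeff_C_mul]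
        have h3 : ∑ j ∈ s, ∑ k, (if ρ k = c then
            MvPolynomial.C ((m j : ℂ) * l (x j k)) * B j i k else 0) = 0 := by
          refine zero_of_blk (o := o) (ρ := ρ) (τ := τ) ?_ fun M hM => ?_
          · refine Inv.sum _ fun j hj => Inv.sum _ fun k _ => ?_
            split_ifs with hk
            · exact (inv_C _).mul (inv_B (hNR j hj) (hNR' j hj) c i k hk)
            · exact Inv.zero
          · rw [← AJ M hM i hi l hll, ev_sum]
            refine Finset.sum_congr rfl fun j hj => ?_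
            rw [ev_sum, schur_single, Finset.mul_sum, Finset.mul_sum]
            refine Finset.sum_congr rfl fun k _ => ?_
            by_cases hk : ρ k = c
            · rw [if_pos hk, ev_mul, ev_C, hB]
              simp only
              rw [ev_Bpol hM (hN j hj) c i k hk]
              ring
            · rw [if_neg hk, ev_zero, cst_ne hk, map_zero]
              ring
        have h4 := congrArg (coeff α) h3
        rw [coeff_zero, coeff_sum] at h4
        have h5 : ∑ j ∈ s, ∑ k, (if ρ k = c then (m j : ℂ) *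
            (fac α * coeff α (P i (x j k)) * coeff α (B j i k)) else 0) =
            fac α * ∑ j ∈ s, coeff α (∑ k, (if ρ k = c then
              MvPolynomial.C ((m j : ℂ) * l (x j k)) * B j i k else 0)) := by
          rw [Finset.mul_sum]
          refine Finset.sum_congr rfl fun j _ => ?_
          rw [coeff_sum, Finset.mul_sum]
          refine Finset.sum_congr rfl fun k _ => ?_
          by_cases hk : ρ k = c
          · rw [if_pos hk, if_pos hk, coeff_C_mul, hl]
            ring
          · rw [if_neg hk, if_neg hk, coeff_zero, mul_zero]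
        rw [h5, h4, mul_zero]
      have h6 : ∑ j ∈ s, ∑ k,
          (if ρ k = c then (m j : ℂ) * fis (P i (x j k)) (B j i k) else 0) =
          ∑ α ∈ S, ∑ j ∈ s, ∑ k, (if ρ k = c then (m j : ℂ) *
          (fac α * coeff α (P i (x j k)) * coeff α (B j i k)) else 0) := by
        rw [Finset.sum_comm (s := S)]
        refine Finset.sum_congr rfl fun j hj => ?_
        rw [Finset.sum_comm (s := S)]
        refine Finset.sum_congr rfl fun k _ => ?_
        by_cases hk : ρ k = c
        · simp only [if_pos hk]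
          rw [h1 j hj k, Finset.mul_sum]
        · simp only [if_neg hk]
          simp
      rw [h6]
      exact Finset.sum_eq_zero fun α _ => h2 α
    · refine Finset.sum_eq_zero fun j _ => ?_
      refine Finset.sum_eq_zero fun k _ => ?_
      rw [hP0 i hi, fis_zero_left, mul_zero, ite_self]
  rw [Finset.sum_eq_zero fun i _ => hzero i] at hsum
  have hT : ∑ j ∈ s, ∑ k, (if ρ k = c then (m j : ℂ) * e j k else 0) = 0 := by
    rcases mul_eq_zero.1 hsum with h | h
    · exact absurd (by exact_mod_cast h) (kap_pos o τ c).ne'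
    · exact h
  -- back to the rational numbers
  set T0 : ℚ := ∑ j ∈ s, ∑ k, (if ρ k = c then (m j : ℚ) * phi F μ (N j) (row ρ c k (x j k))
    else 0) with hT0
  have hgoal : ∑ j ∈ s, ∑ k,
      (if ρ k = c then (m j : ℚ) * phi F μ (N j) (Pi.single k (g j k)) else 0) = T0 := by
    rw [hT0]
    refine Finset.sum_congr rfl fun j _ => Finset.sum_congr rfl fun k _ => ?_
    by_cases hk : ρ k = c
    · rw [if_pos hk, if_pos hk, row_apply, hx]
      simp only
      rw [cst_cst hk]
    · rw [if_neg hk, if_neg hk]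
  rw [hgoal]
  by_cases hc : o.cm c
  · set T1 : ℚ := ∑ j ∈ s, ∑ k, (if ρ k = c then
      (m j : ℚ) * phi F μ (N j) (row ρ c k (w c (x j k))) else 0) with hT1
    have h1 : ∑ j ∈ s, ∑ k, (if ρ k = c then (m j : ℂ) * e j k else 0) =
        (o.ω c - conj (o.ω c))⁻¹ * ((T1 : ℂ) - conj (o.ω c) * (T0 : ℂ)) := by
      rw [hT0, hT1]
      push_cast
      rw [Finset.mul_sum, ← Finset.sum_sub_distrib, Finset.mul_sum]
      refine Finset.sum_congr rfl fun j hj => ?_
      rw [Finset.mul_sum, ← Finset.sum_sub_distrib, Finset.mul_sum]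
      refine Finset.sum_congr rfl fun k _ => ?_
      by_cases hk : ρ k = c
      · simp only [if_pos hk]
        rw [he]
        simp only
        rw [hP k _ (N j) (hN j hj), if_pos hc]
        push_cast
        ring
      · simp only [if_neg hk]
        push_cast
        ring
    rw [hT] at h1
    have h2 : (T1 : ℂ) - conj (o.ω c) * (T0 : ℂ) = 0 := by
      rcases mul_eq_zero.1 h1.symm with h | h
      · exact absurd (inv_eq_zero.1 h) (o.sub_ne c hc)
      · exact h
    have h3 := congrArg Complex.im h2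
    simp at h3
    rcases h3 with h3 | h3
    · exact absurd h3 hc
    · exact h3
  · have h1 : ∑ j ∈ s, ∑ k, (if ρ k = c then (m j : ℂ) * e j k else 0) = (T0 : ℂ) := by
      rw [hT0]
      push_cast
      refine Finset.sum_congr rfl fun j hj => Finset.sum_congr rfl fun k _ => ?_
      by_cases hk : ρ k = c
      · simp only [if_pos hk]
        rw [he]
        simp only
        rw [hP k _ (N j) (hN j hj), if_neg hc]
        push_cast
        rfl
      · simp only [if_neg hk]
        push_cast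
        rfl
    rw [hT] at h1
    exact_mod_cast h1.symm

include hF in
/-- **Homologically and Abel-Jacobi trivial combinations are torsion.** -/
theorem main {J : Type} (s : Finset J) (m : J → ℤ)
    (N : J → Matrix R D (ℤ × ℤ)) (g : J → ∀ i, G (ρ i)) (hN : ∀ j ∈ s, Blk o ρ τ (N j))
    (hom : ∀ M, Blk o ρ τ M →
      ∑ j ∈ s, m j * Complex.normSq ((toC o ρ M)ᵀ * toC o ρ (N j)).det = 0)
    (AJ : ∀ M, Blk o ρ τ M → ∀ (c : C) (z : R → ℤ), (∀ i, ρ i ≠ c → z i = 0) →
      ∀ l : G c →+ ℂ, (o.cm c → ∀ x, l (w c x) = o.ω c * l x) →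
      ∑ j ∈ s, m j * (conj ((toC o ρ M)ᵀ * toC o ρ (N j)).det *
        ((fromCols (toC o ρ M) (replicateCol Unit (fun i => (z i : ℂ))))ᵀ *
        fromCols (toC o ρ (N j)) (replicateCol Unit (fun i => l (cst (ρ i) c (g j i))))).det)
        = 0) :
    IsOfFinAddOrder (∑ j ∈ s, m j • F (N j) (g j)) := by
  by_contra hcon
  obtain ⟨μ, hμ⟩ := exists_hom _ hcon
  apply hμ
  rw [map_sum]
  have h1 := main_H s m N hN hom (hF.good μ 0)
  have h2 : ∑ j ∈ s, (m j : ℚ) * phi F μ (N j) (g j) = 0 := by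
    have h3 : ∀ j ∈ s, (m j : ℚ) * phi F μ (N j) (g j) = ∑ c ∈ Finset.univ.image ρ, ∑ k,
        (if ρ k = c then (m j : ℚ) * phi F μ (N j) (Pi.single k (g j k)) else 0) := by
      intro j hj
      obtain ⟨l, hl⟩ := phi_hom hF μ (N j) (hN j hj)
      rw [Finset.sum_comm]
      have h4 : ∀ k, ∑ c ∈ Finset.univ.image ρ,
          (if ρ k = c then (m j : ℚ) * phi F μ (N j) (Pi.single k (g j k)) else 0) =
          (m j : ℚ) * l (Pi.single k (g j k)) := by
        intro k
        rw [Finset.sum_ite_eq (Finset.univ.image ρ) (ρ k),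
          if_pos (Finset.mem_image_of_mem ρ (Finset.mem_univ k)), hl]
      rw [Finset.sum_congr rfl fun k _ => h4 k, ← Finset.mul_sum, ← map_sum,
        Finset.univ_sum_single, hl]
    rw [Finset.sum_congr rfl h3, Finset.sum_comm]
    refine Finset.sum_eq_zero fun c _ => ?_
    refine main_AJ hF μ s m N g hN c fun M hM i hi l hl => ?_
    have h5 := AJ M hM c (Pi.single i 1) (fun i' hi' => by
      rw [Pi.single_eq_of_ne]
      rintro rfl
      exact hi' hi) l hl
    rw [← h5]
    refine Finset.sum_congr rfl fun j _ => ?_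
    rw [conj_border]
    congr 3
    funext i'
    by_cases h6 : i' = i
    · subst h6
      simp
    · simp [h6]
  rw [← add_zero (0 : ℚ)]
  nth_rewrite 1 [← h1]
  rw [← h2, ← Finset.sum_add_distrib]
  refine Finset.sum_congr rfl fun j _ => ?_
  rw [map_zsmul, zsmul_eq_mul, phi]
  ring

end fam

end Pool.Agent.LibAC84H
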