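import Mathlib

/-!
Functions on `ℤ ^ I` with vanishing third differences in every variable are polynomials.
-/

open MvPolynomial

namespace Pool.Agent.LibAC84H

theorem cubic_one (g : ℤ → ℚ) (h : ∀ k, g (k + 3) - 3 * g (k + 2) + 3 * g (k + 1) - g k = 0)
    (k : ℤ) : g k = ((k : ℚ) - 1) * (k - 2) / 2 * g 0 - k * (k - 2) * g 1 + k * (k - 1) / 2 * g 2 := by
  set G : ℤ → ℚ := fun k => ((k : ℚ) - 1) * (k - 2) / 2 * g 0 - k * (k - 2) * g 1 +
    k * (k - 1) / 2 * g 2 with hG
  have hG3 : ∀ k, G (k + 3) - 3 * G (k + 2) + 3 * G (k + 1) - G k = 0 := by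
    intro k
    simp only [hG]
    push_cast
    ring
  have h0 : G 0 = g 0 := by simp only [hG]; push_cast; ring
  have h1 : G 1 = g 1 := by simp only [hG]; push_cast; ring
  have h2 : G 2 = g 2 := by simp only [hG]; push_cast; ring
  have key : ∀ n : ℕ, (g n = G n ∧ g (n + 1) = G (n + 1) ∧ g (n + 2) = G (n + 2)) ∧
      (g (-n) = G (-n) ∧ g (-n + 1) = G (-n + 1) ∧ g (-n + 2) = G (-n + 2)) := by
    intro n
    induction n with
    | zero => simp [h0, h1, h2]
    | succ n ih =>
      obtain ⟨⟨a0, a1, a2⟩, b0, b1, b2⟩ := ih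
      refine ⟨⟨?_, ?_, ?_⟩, ?_, ?_, ?_⟩
      · push_cast; exact a1
      · push_cast
        rw [show (n : ℤ) + 1 + 1 = n + 2 by ring]; exact a2
      · push_cast
        rw [show (n : ℤ) + 1 + 2 = n + 3 by ring]
        have e1 := h n
        have e2 := hG3 n
        linarith
      · push_cast
        have e1 := h (-(n : ℤ) - 1)
        have e2 := hG3 (-(n : ℤ) - 1)
        rw [show -(n : ℤ) - 1 + 3 = -n + 2 by ring, show -(n : ℤ) - 1 + 2 = -n + 1 by ring,
          show -(n : ℤ) - 1 + 1 = -n by ring] at e1 e2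
        rw [show -((n : ℤ) + 1) = -n - 1 by ring]
        linarith
      · push_cast
        rw [show -((n : ℤ) + 1) + 1 = -n by ring]; exact b0
      · push_cast
        rw [show -((n : ℤ) + 1) + 2 = -n + 1 by ring]; exact b1
  obtain ⟨n, rfl | rfl⟩ := Int.eq_nat_or_neg k
  · exact (key n).1.1
  · exact (key n).2.1

theorem exists_poly_fin (n : ℕ) : ∀ f : (Fin n → ℤ) → ℚ,
    (∀ N i, f (Function.update N i (N i + 3)) - 3 * f (Function.update N i (N i + 2)) +
      3 * f (Function.update N i (N i + 1)) - f N = 0) →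
    ∃ P : MvPolynomial (Fin n) ℚ, ∀ N, eval (fun i => (N i : ℚ)) P = f N := by
  induction n with
  | zero =>
    intro f _
    refine ⟨C (f 0), fun N => ?_⟩
    rw [eval_C, Subsingleton.elim N 0]
  | succ n ih =>
    intro f hf
    have hc : ∀ e : ℤ, ∃ P : MvPolynomial (Fin n) ℚ, ∀ N,
        eval (fun i => (N i : ℚ)) P = f (Fin.cons e N) := by
      intro e
      refine ih (fun N => f (Fin.cons e N)) fun N i => ?_
      have h1 := hf (Fin.cons e N) i.succ
      simpa only [Fin.cons_succ, ← Fin.cons_update] using h1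
    choose P hP using hc
    refine ⟨C (1 / 2) * (X 0 - 1) * (X 0 - 2) * rename Fin.succ (P 0) -
      X 0 * (X 0 - 2) * rename Fin.succ (P 1) +
      C (1 / 2) * X 0 * (X 0 - 1) * rename Fin.succ (P 2), fun N => ?_⟩
    have h1 := cubic_one (fun e => f (Fin.cons e (Fin.tail N))) (fun k => by
      have h2 := hf (Fin.cons k (Fin.tail N)) 0
      simpa only [Fin.cons_zero, Fin.update_cons_zero] using h2) (N 0)
    simp only [Fin.cons_self_tail] at h1
    rw [h1]
    have h3 : ∀ e, eval (fun i => (N i : ℚ)) (rename Fin.succ (P e)) =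
        f (Fin.cons e (Fin.tail N)) := by
      intro e
      rw [eval_rename, ← hP]
      rfl
    simp only [map_add, map_sub, map_mul, eval_C, eval_X, map_one, h3, map_ofNat]
    ring

theorem exists_poly {I : Type} [Fintype I] [DecidableEq I] (f : (I → ℤ) → ℚ)
    (hf : ∀ N i, f (Function.update N i (N i + 3)) - 3 * f (Function.update N i (N i + 2)) +
      3 * f (Function.update N i (N i + 1)) - f N = 0) :
    ∃ P : MvPolynomial I ℚ, ∀ N, eval (fun i => (N i : ℚ)) P = f N := by
  obtain ⟨n, ⟨e⟩⟩ := Finite.exists_equiv_fin I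
  obtain ⟨P, hP⟩ := exists_poly_fin n (fun N => f (N ∘ e)) (fun N i => by
    have h1 := hf (N ∘ e) (e.symm i)
    have h2 : ∀ x : ℤ, Function.update (N ∘ e) (e.symm i) x = (Function.update N i x) ∘ e := by
      intro x
      funext j
      by_cases h : j = e.symm i
      · subst h; simp
      · rw [Function.update_of_ne h, Function.comp, Function.comp, Function.update_of_ne]
        intro h'
        apply h
        rw [← h']; simp
    simp only [h2, Function.comp, Equiv.apply_symm_apply] at h1
    exact h1)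
  refine ⟨rename e.symm P, fun N => ?_⟩
  rw [eval_rename]
  have := hP (N ∘ e.symm)
  rw [show (N ∘ e.symm) ∘ e = N by ext; simp] at this
  rw [← this]
  rfl

/-- two polynomials which agree at the integer points are equal -/
theorem ext_int {I : Type} (P Q : MvPolynomial I ℚ)
    (h : ∀ N : I → ℤ, eval (fun i => (N i : ℚ)) P = eval (fun i => (N i : ℚ)) Q) : P = Q := by
  refine MvPolynomial.funext_set (fun _ => Set.range ((↑) : ℤ → ℚ))
    (fun _ => Set.infinite_range_of_injective Int.cast_injective) fun x hx => ?_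
  have hx' : ∀ i, ∃ z : ℤ, (z : ℚ) = x i := fun i => hx i (Set.mem_univ i)
  choose N hN using hx'
  have : x = fun i => (N i : ℚ) := funext fun i => (hN i).symm
  rw [this]
  exact h N

end Pool.Agent.LibAC84H
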