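import Pool.Agent.LibAC84H.Quad
import Pool.Agent.LibAC84H.Interp

/-!
Matrices with entries in orders `ℤ + ℤ ω` of complex numbers: definitions.
-/

open Matrix
open scoped ComplexConjugate

set_option linter.unusedSectionVars false

namespace Pool.Agent.LibAC84H

/-- For every element `c` of `C` a complex number `ω c` which is integral over `ℤ` with the conjugate
`conj (ω c)`; the pair `(x, y)` of integers stands for `x + y ω c`. -/
structure Ord (C : Type) where
  /-- the complex numbers -/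
  ω : C → ℂ
  /-- their traces -/
  t : C → ℤ
  /-- their norms -/
  n : C → ℤ
  ht : ∀ c, ω c + conj (ω c) = t c
  hn : ∀ c, ω c * conj (ω c) = n c

/-- the number `ω c` is not real -/
def Ord.cm {C : Type} (o : Ord C) (c : C) : Prop := (o.ω c).im ≠ 0

/-- the complex number `x + y ω c` -/
def Ord.cx {C : Type} (o : Ord C) (c : C) (p : ℤ × ℤ) : ℂ := p.1 + p.2 * o.ω c

/-- multiplication by `ω c` -/
def Ord.mw {C : Type} (o : Ord C) (c : C) (p : ℤ × ℤ) : ℤ × ℤ := (-(o.n c * p.2), p.1 + o.t c * p.2)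

/-- multiplication -/
def Ord.mul {C : Type} (o : Ord C) (c : C) (p q : ℤ × ℤ) : ℤ × ℤ := q.1 • p + q.2 • o.mw c p

/-- the norm -/
def Ord.nm {C : Type} (o : Ord C) (c : C) (p : ℤ × ℤ) : ℤ :=
  p.1 ^ 2 + o.t c * p.1 * p.2 + o.n c * p.2 ^ 2

section ord
variable {C : Type} (o : Ord C) (c : C)

theorem Ord.sq : o.ω c * o.ω c = o.t c * o.ω c - o.n c := by
  rw [← o.ht, ← o.hn]
  ring

theorem Ord.cx_mw (p : ℤ × ℤ) : o.cx c (o.mw c p) = o.ω c * o.cx c p := by
  unfold Ord.cx Ord.mw
  push_cast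
  linear_combination (-(p.2 : ℂ)) * o.sq c

theorem Ord.cx_add (p q : ℤ × ℤ) : o.cx c (p + q) = o.cx c p + o.cx c q := by
  unfold Ord.cx
  push_cast [Prod.fst_add, Prod.snd_add]
  ring

theorem Ord.cx_zero : o.cx c 0 = 0 := by simp [Ord.cx]

theorem Ord.cx_zsmul (m : ℤ) (p : ℤ × ℤ) : o.cx c (m • p) = m * o.cx c p := by
  unfold Ord.cx
  simp only [Prod.smul_fst, Prod.smul_snd, smul_eq_mul, Int.cast_mul]
  ring

theorem Ord.cx_mul (p q : ℤ × ℤ) : o.cx c (o.mul c p q) = o.cx c p * o.cx c q := by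
  unfold Ord.mul
  rw [o.cx_add, o.cx_zsmul, o.cx_zsmul, o.cx_mw]
  unfold Ord.cx
  ring

theorem Ord.mw_add (p q : ℤ × ℤ) : o.mw c (p + q) = o.mw c p + o.mw c q := by
  unfold Ord.mw
  ext
  · simp only [Prod.fst_add, Prod.snd_add]; ring
  · simp only [Prod.fst_add, Prod.snd_add]; ring

theorem Ord.mw_zero : o.mw c 0 = 0 := by simp [Ord.mw]

theorem Ord.mw_mw (p : ℤ × ℤ) : o.mw c (o.mw c p) = o.t c • o.mw c p - o.n c • p := by
  unfold Ord.mw
  ext
  · simp only [Prod.fst_sub, Prod.smul_fst, smul_eq_mul]; ring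
  · simp only [Prod.snd_sub, Prod.smul_snd, smul_eq_mul]; ring

theorem Ord.nm_eq (p : ℤ × ℤ) : ((o.nm c p : ℤ) : ℂ) = o.cx c p * conj (o.cx c p) := by
  unfold Ord.nm Ord.cx
  push_cast
  rw [map_add, map_mul, map_intCast, map_intCast, ← o.ht, ← o.hn]
  ring

theorem Ord.conj_eq : conj (o.ω c) = o.t c - o.ω c := by
  rw [← o.ht]; ring

theorem Ord.disc (h : o.cm c) : o.t c ^ 2 < 4 * o.n c := by
  have h1 : ((o.t c : ℤ) : ℝ) = 2 * (o.ω c).re := by
    have := congrArg Complex.re (o.ht c)
    simp at this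
    linarith
  have h2 : ((o.n c : ℤ) : ℝ) = (o.ω c).re ^ 2 + (o.ω c).im ^ 2 := by
    have := congrArg Complex.re (o.hn c)
    simp at this
    nlinarith
  have h3 : 0 < (o.ω c).im ^ 2 := by
    have : (o.ω c).im ≠ 0 := h
    positivity
  have h4 : ((o.t c : ℤ) : ℝ) ^ 2 < 4 * ((o.n c : ℤ) : ℝ) := by
    rw [h1, h2]
    nlinarith
  exact_mod_cast h4

theorem Ord.sub_ne (h : o.cm c) : o.ω c - conj (o.ω c) ≠ 0 := by
  intro h1
  apply h
  have := congrArg Complex.im h1
  simp at this
  linarith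

end ord

variable {C R D : Type} [DecidableEq C] [Fintype R] [DecidableEq R] [Fintype D] [DecidableEq D]

/-- the column `u` is supported on the block of `c` -/
def Sup (o : Ord C) (ρ : R → C) (c : C) (u : R → ℤ × ℤ) : Prop :=
  ∀ i, (ρ i ≠ c → u i = 0) ∧ (¬ o.cm (ρ i) → (u i).2 = 0)

/-- block matrices -/
def Blk (o : Ord C) (ρ : R → C) (τ : D → C) (N : Matrix R D (ℤ × ℤ)) : Prop :=
  ∀ a, Sup o ρ (τ a) (fun i => N i a)

/-- the complex matrix with the entries `x + y ω` -/
def toC (o : Ord C) (ρ : R → C) (N : Matrix R D (ℤ × ℤ)) : Matrix R D ℂ :=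
  fun i a => o.cx (ρ i) (N i a)

open scoped Classical in
/-- the block part of a column -/
noncomputable def prc (o : Ord C) (ρ : R → C) (c : C) (u : R → ℤ × ℤ) : R → ℤ × ℤ :=
  fun i => if ρ i = c then (if o.cm (ρ i) then u i else ((u i).1, 0)) else 0

/-- the block part of a matrix -/
noncomputable def pri (o : Ord C) (ρ : R → C) (τ : D → C) (N : Matrix R D (ℤ × ℤ)) :
    Matrix R D (ℤ × ℤ) := fun i a => prc o ρ (τ a) (fun i => N i a) i

section
variable {o : Ord C} {ρ : R → C} {τ : D → C} {c : C}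

theorem prc_cm (u : R → ℤ × ℤ) {i : R} (h : ρ i = c) (hc : o.cm (ρ i)) :
    prc o ρ c u i = u i := by
  unfold prc
  rw [if_pos h, if_pos hc]

theorem prc_re (u : R → ℤ × ℤ) {i : R} (h : ρ i = c) (hc : ¬ o.cm (ρ i)) :
    prc o ρ c u i = ((u i).1, 0) := by
  unfold prc
  rw [if_pos h, if_neg hc]

theorem prc_ne (u : R → ℤ × ℤ) {i : R} (h : ρ i ≠ c) : prc o ρ c u i = 0 := by
  unfold prc
  rw [if_neg h]

theorem sup_prc (u : R → ℤ × ℤ) : Sup o ρ c (prc o ρ c u) := by
  intro i
  refine ⟨fun h => if_neg h, fun h => ?_⟩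
  unfold prc
  split_ifs <;> rfl

theorem prc_of_sup {u : R → ℤ × ℤ} (h : Sup o ρ c u) : prc o ρ c u = u := by
  funext i
  unfold prc
  split_ifs with h1 h2
  · rfl
  · exact Prod.ext rfl ((h i).2 h2).symm
  · exact ((h i).1 h1).symm

theorem prc_add (u v : R → ℤ × ℤ) : prc o ρ c (u + v) = prc o ρ c u + prc o ρ c v := by
  funext i
  simp only [prc, Pi.add_apply]
  split_ifs
  · rfl
  · ext <;> simp
  · simp

theorem prc_zero : prc o ρ c (0 : R → ℤ × ℤ) = 0 := by
  funext i
  simp only [prc, Pi.zero_apply]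
  split_ifs <;> rfl

/-- `prc` as a homomorphism -/
noncomputable def prcH (o : Ord C) (ρ : R → C) (c : C) : (R → ℤ × ℤ) →+ (R → ℤ × ℤ) where
  toFun := prc o ρ c
  map_zero' := prc_zero
  map_add' := prc_add

theorem prc_sub (u v : R → ℤ × ℤ) : prc o ρ c (u - v) = prc o ρ c u - prc o ρ c v :=
  map_sub (prcH o ρ c) u v

theorem prc_zsmul (m : ℤ) (u : R → ℤ × ℤ) : prc o ρ c (m • u) = m • prc o ρ c u :=
  map_zsmul (prcH o ρ c) m u

theorem blk_pri (N : Matrix R D (ℤ × ℤ)) : Blk o ρ τ (pri o ρ τ N) := fun a => sup_prc _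

theorem pri_of_blk {N : Matrix R D (ℤ × ℤ)} (h : Blk o ρ τ N) : pri o ρ τ N = N := by
  funext i a
  exact congrFun (prc_of_sup (h a)) i

theorem Sup.add {u v : R → ℤ × ℤ} (hu : Sup o ρ c u) (hv : Sup o ρ c v) : Sup o ρ c (u + v) := by
  intro i
  refine ⟨fun h => ?_, fun h => ?_⟩
  · rw [Pi.add_apply, (hu i).1 h, (hv i).1 h, add_zero]
  · rw [Pi.add_apply, Prod.snd_add, (hu i).2 h, (hv i).2 h, add_zero]

theorem Sup.zsmul {u : R → ℤ × ℤ} (hu : Sup o ρ c u) (m : ℤ) : Sup o ρ c (m • u) := by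
  intro i
  refine ⟨fun h => ?_, fun h => ?_⟩
  · rw [Pi.smul_apply, (hu i).1 h, smul_zero]
  · rw [Pi.smul_apply, Prod.smul_snd, (hu i).2 h, smul_zero]

theorem Sup.mw {u : R → ℤ × ℤ} (hu : Sup o ρ c u) (hc : o.cm c) :
    Sup o ρ c (fun i => o.mw c (u i)) := by
  intro i
  refine ⟨fun h => ?_, fun h => ?_⟩
  · simp only
    rw [(hu i).1 h, o.mw_zero]
  · by_cases h1 : ρ i = c
    · exact absurd (h1 ▸ hc) h
    · simp only
      rw [(hu i).1 h1, o.mw_zero]
      rfl

theorem Blk.updateCol {N : Matrix R D (ℤ × ℤ)} (h : Blk o ρ τ N) {a : D} {u : R → ℤ × ℤ}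
    (hu : Sup o ρ (τ a) u) : Blk o ρ τ (N.updateCol a u) := by
  intro b
  by_cases hb : b = a
  · subst hb
    have : (fun i => N.updateCol b u i b) = u := by
      funext i
      rw [Matrix.updateCol_self]
    rw [this]
    exact hu
  · have : (fun i => N.updateCol a u i b) = fun i => N i b := by
      funext i
      rw [Matrix.updateCol_ne hb]
    rw [this]
    exact h b

theorem updateCol_eq (N : Matrix R D (ℤ × ℤ)) (a : D) : N.updateCol a (fun i => N i a) = N := by
  funext i b
  by_cases hb : b = a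
  · subst hb; rw [Matrix.updateCol_self]
  · rw [Matrix.updateCol_ne hb]

theorem updateCol_twice (N : Matrix R D (ℤ × ℤ)) (a : D) (u v : R → ℤ × ℤ) :
    (N.updateCol a u).updateCol a v = N.updateCol a v := by
  funext i b
  by_cases hb : b = a
  · subst hb; rw [Matrix.updateCol_self, Matrix.updateCol_self]
  · rw [Matrix.updateCol_ne hb, Matrix.updateCol_ne hb, Matrix.updateCol_ne hb]

end

/-- the properties of a function on block matrices -/
structure Good (o : Ord C) (ρ : R → C) (τ : D → C) (f : Matrix R D (ℤ × ℤ) → ℚ) : Prop where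
  par : ∀ N, Blk o ρ τ N → ∀ a (u v : R → ℤ × ℤ), Sup o ρ (τ a) u → Sup o ρ (τ a) v →
    f (N.updateCol a (u + v)) + f (N.updateCol a (u - v)) =
      2 * f (N.updateCol a u) + 2 * f (N.updateCol a v)
  col : ∀ N, Blk o ρ τ N → ∀ a b, a ≠ b → τ a = τ b →
    f (N.updateCol b (fun i => N i b + N i a)) = f N
  colw : ∀ N, Blk o ρ τ N → ∀ a b, a ≠ b → τ a = τ b → o.cm (τ a) →
    f (N.updateCol b (fun i => N i b + o.mw (τ a) (N i a))) = f N
  deg : ∀ a, o.cm (τ a) → ∃ δ : ℕ, ∀ N, Blk o ρ τ N →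
    f (N.updateCol a (fun i => o.mw (τ a) (N i a))) = δ * f N

section good
variable {o : Ord C} {ρ : R → C} {τ : D → C} {f : Matrix R D (ℤ × ℤ) → ℚ} (hf : Good o ρ τ f)
include hf

/-- the function of one column, extended to all columns -/
theorem Good.qpar (N : Matrix R D (ℤ × ℤ)) (hN : Blk o ρ τ N) (a : D) (u v : R → ℤ × ℤ) :
    f (N.updateCol a (prc o ρ (τ a) (u + v))) + f (N.updateCol a (prc o ρ (τ a) (u - v))) =
      2 * f (N.updateCol a (prc o ρ (τ a) u)) + 2 * f (N.updateCol a (prc o ρ (τ a) v)) := by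
  rw [prc_add, prc_sub]
  exact hf.par N hN a _ _ (sup_prc u) (sup_prc v)

theorem Good.sca (N : Matrix R D (ℤ × ℤ)) (hN : Blk o ρ τ N) (a : D) (p : ℤ × ℤ)
    (hp : ¬ o.cm (τ a) → p.2 = 0) :
    f (N.updateCol a (fun i => o.mul (τ a) (N i a) p)) = (o.nm (τ a) p : ℤ) * f N := by
  set q : (R → ℤ × ℤ) → ℚ := fun u => f (N.updateCol a (prc o ρ (τ a) u)) with hq
  have hpar : ∀ u v, q (u + v) + q (u - v) = 2 * q u + 2 * q v := hf.qpar N hN a
  have hNa : prc o ρ (τ a) (fun i => N i a) = fun i => N i a := prc_of_sup (hN a)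
  have hqN : q (fun i => N i a) = f N := by
    rw [hq]
    simp only
    rw [hNa, updateCol_eq]
  by_cases hc : o.cm (τ a)
  · obtain ⟨δ, hδ⟩ := hf.deg a hc
    let w : (R → ℤ × ℤ) →+ (R → ℤ × ℤ) :=
      { toFun := fun u i => o.mw (τ a) (u i)
        map_zero' := by funext i; exact o.mw_zero _
        map_add' := fun u v => by funext i; exact o.mw_add _ _ _ }
    have hw : ∀ u, w (w u) = o.t (τ a) • w u - o.n (τ a) • u := fun u => by
      funext i
      exact o.mw_mw (τ a) (u i)
    have hprw : ∀ u, prc o ρ (τ a) (w u) = w (prc o ρ (τ a) u) := by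
      intro u
      funext i
      show prc o ρ (τ a) (w u) i = o.mw (τ a) (prc o ρ (τ a) u i)
      by_cases h1 : ρ i = τ a
      · have h2 : o.cm (ρ i) := by rw [h1]; exact hc
        rw [prc_cm _ h1 h2, prc_cm _ h1 h2]
        rfl
      · rw [prc_ne _ h1, prc_ne _ h1, o.mw_zero]
    have hqw : ∀ u, q (w u) = δ * q u := by
      intro u
      have h1 := hδ (N.updateCol a (prc o ρ (τ a) u)) (hN.updateCol (sup_prc u))
      rw [updateCol_twice] at h1
      rw [hq]
      simp only
      rw [hprw, ← h1]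
      congr 1
      congr 1
      funext i
      rw [Matrix.updateCol_self]
      rfl
    have key := quad_scale q hpar w (o.t (τ a)) (o.n (τ a)) hw (o.disc _ hc) δ
      (Nat.cast_nonneg δ) hqw p.1 p.2 (fun i => N i a)
    rw [hqN] at key
    have h3 : (p.1 • (fun i => N i a) + p.2 • w (fun i => N i a) : R → ℤ × ℤ) =
        fun i => o.mul (τ a) (N i a) p := by
      funext i
      rfl
    rw [h3] at key
    have h4 : Sup o ρ (τ a) (fun i => o.mul (τ a) (N i a) p) := by
      rw [← h3]
      exact ((hN a).zsmul p.1).add (((hN a).mw hc).zsmul p.2)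
    rw [hq] at key
    simp only at key
    rw [prc_of_sup h4] at key
    rw [key]
    unfold Ord.nm
    push_cast
    ring
  · have hp2 := hp hc
    have h3 : (fun i => o.mul (τ a) (N i a) p : R → ℤ × ℤ) = p.1 • (fun i => N i a) := by
      funext i
      unfold Ord.mul
      rw [hp2, zero_smul, add_zero]
      rfl
    obtain ⟨B, hB, hqB, hadd⟩ := exists_polar q hpar
    have hz : ∀ (m : ℤ) (u v : R → ℤ × ℤ), B (m • u) v = m * B u v := by
      intro m u v
      let g : (R → ℤ × ℤ) →+ ℚ := AddMonoidHom.mk' (fun u => B u v) (fun a b => hadd a b v)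
      have := map_zsmul g m u
      rw [zsmul_eq_mul] at this
      exact this
    have h0 : q 0 = 0 := by
      have := hpar 0 0
      simp only [add_zero, sub_zero] at this
      linarith
    have hdiag : ∀ u, B u u = 2 * q u := by
      intro u
      have h1 := hqB u u
      have h2 := hpar u u
      rw [sub_self, h0] at h2
      linarith
    have h4 := hdiag (p.1 • (fun i => N i a))
    rw [hz, hB, hz, hdiag, hqN] at h4
    have h5 : q (p.1 • (fun i => N i a)) = f (N.updateCol a (fun i => o.mul (τ a) (N i a) p)) := by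
      rw [hq]
      simp only
      rw [prc_zsmul, hNa, h3]
    rw [← h5]
    unfold Ord.nm
    rw [hp2]
    push_cast
    linarith

theorem Good.cub (N : Matrix R D (ℤ × ℤ)) (hN : Blk o ρ τ N) (a : D) (u v : R → ℤ × ℤ)
    (hu : Sup o ρ (τ a) u) (hv : Sup o ρ (τ a) v) :
    f (N.updateCol a (u + (3 : ℤ) • v)) - 3 * f (N.updateCol a (u + (2 : ℤ) • v)) +
      3 * f (N.updateCol a (u + v)) - f (N.updateCol a u) = 0 := by
  have h1 := hf.par N hN a (u + v) v (hu.add hv) hv
  have h2 := hf.par N hN a (u + (2 : ℤ) • v) v (hu.add (hv.zsmul 2)) hv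
  rw [show u + v + v = u + (2 : ℤ) • v by rw [two_zsmul, add_assoc],
    show u + v - v = u by rw [add_sub_cancel_right]] at h1
  rw [show u + (2 : ℤ) • v + v = u + (3 : ℤ) • v by
      rw [show (3 : ℤ) = 2 + 1 by norm_num, add_zsmul, one_zsmul, add_assoc],
    show u + (2 : ℤ) • v - v = u + v by rw [two_zsmul, add_sub_assoc, add_sub_cancel_right]] at h2
  linarith

/-- the full column operation -/
theorem Good.colp (N : Matrix R D (ℤ × ℤ)) (hN : Blk o ρ τ N) (a b : D) (hab : a ≠ b)
    (h : τ a = τ b) (p : ℤ × ℤ) (hp : ¬ o.cm (τ a) → p.2 = 0) :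
    f (N.updateCol b (fun i => N i b + o.mul (τ a) (N i a) p)) = f N := by
  have hNa : Sup o ρ (τ b) (fun i => N i a) := by rw [← h]; exact hN a
  -- iteration
  have hiter : ∀ (v : R → ℤ × ℤ), Sup o ρ (τ b) v →
      (∀ M, Blk o ρ τ M → (∀ i, M i a = N i a) → f (M.updateCol b (fun i => M i b + v i)) = f M) →
      ∀ (x : ℤ) (M : Matrix R D (ℤ × ℤ)), Blk o ρ τ M → (∀ i, M i a = N i a) →
        f (M.updateCol b (fun i => M i b + x • v i)) = f M := by
    intro v hv hstep x M hM hMa
    have hB : ∀ x : ℤ, Blk o ρ τ (M.updateCol b (fun i => M i b + x • v i)) := fun x =>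
      hM.updateCol ((hM b).add (hv.zsmul x))
    have hA : ∀ (x : ℤ) i, (M.updateCol b (fun i => M i b + x • v i)) i a = N i a := by
      intro x i
      rw [Matrix.updateCol_ne hab]
      exact hMa i
    have hadd : ∀ x : ℤ, f (M.updateCol b (fun i => M i b + (x + 1) • v i)) =
        f (M.updateCol b (fun i => M i b + x • v i)) := by
      intro x
      rw [← hstep _ (hB x) (hA x), updateCol_twice]
      congr 1
      congr 1
      funext i
      rw [Matrix.updateCol_self, add_smul, one_smul, add_assoc]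
    induction x using Int.induction_on with
    | zero =>
      simp only [zero_smul, add_zero]
      rw [updateCol_eq]
    | succ n ih => rw [hadd, ih]
    | pred n ih => rw [← hadd, sub_add_cancel, ih]
  have h1 := hiter (fun i => N i a) hNa (fun M hM hMa => by
    have := hf.col M hM a b hab h
    rw [← this]
    congr 1
    congr 1
    funext i
    rw [hMa]) p.1
  by_cases hc : o.cm (τ a)
  · have hv : Sup o ρ (τ b) (fun i => o.mw (τ a) (N i a)) := by
      rw [← h]
      exact (hN a).mw hc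
    have h2 := hiter (fun i => o.mw (τ a) (N i a)) hv (fun M hM hMa => by
      have := hf.colw M hM a b hab h hc
      rw [← this]
      congr 1
      congr 1
      funext i
      rw [hMa]) p.2
    have h3 := h2 (N.updateCol b (fun i => N i b + p.1 • N i a))
      (hN.updateCol ((hN b).add (hNa.zsmul p.1))) (fun i => Matrix.updateCol_ne hab)
    rw [updateCol_twice, h1 N hN (fun _ => rfl)] at h3
    rw [← h3]
    congr 1
    congr 1
    funext i
    rw [Matrix.updateCol_self, add_assoc]
    rfl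
  · have h3 := h1 N hN (fun _ => rfl)
    rw [← h3]
    congr 1
    congr 1
    funext i
    unfold Ord.mul
    rw [hp hc, zero_smul, add_zero]

/-- all the columns are multiplied -/
theorem Good.diag (N : Matrix R D (ℤ × ℤ)) (hN : Blk o ρ τ N) (d : D → ℤ × ℤ)
    (hd : ∀ a, ¬ o.cm (τ a) → (d a).2 = 0) :
    f (fun i a => o.mul (τ a) (N i a) (d a)) = (∏ a, ((o.nm (τ a) (d a) : ℤ) : ℚ)) * f N := by
  have hmB : ∀ a, Sup o ρ (τ a) (fun i => o.mul (τ a) (N i a) (d a)) := by
    intro a
    by_cases hc : o.cm (τ a)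
    · exact ((hN a).zsmul (d a).1).add (((hN a).mw hc).zsmul (d a).2)
    · have : (fun i => o.mul (τ a) (N i a) (d a) : R → ℤ × ℤ) = (d a).1 • (fun i => N i a) := by
        funext i
        unfold Ord.mul
        rw [hd a hc, zero_smul, add_zero]
        rfl
      rw [this]
      exact (hN a).zsmul _
  have key : ∀ S : Finset D, f (fun i a => if a ∈ S then o.mul (τ a) (N i a) (d a) else N i a) =
      (∏ a ∈ S, ((o.nm (τ a) (d a) : ℤ) : ℚ)) * f N := by
    intro S
    induction S using Finset.induction_on with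
    | empty => simp
    | insert a S ha ih =>
      rw [Finset.prod_insert ha, mul_assoc, ← ih]
      set M : Matrix R D (ℤ × ℤ) := fun i a => if a ∈ S then o.mul (τ a) (N i a) (d a) else N i a
        with hM
      have hMB : Blk o ρ τ M := by
        intro b
        by_cases hb : b ∈ S
        · have : (fun i => M i b) = fun i => o.mul (τ b) (N i b) (d b) := by
            funext i
            rw [hM]
            simp only [if_pos hb]
          rw [this]
          exact hmB b
        · have : (fun i => M i b) = fun i => N i b := by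
            funext i
            rw [hM]
            simp only [if_neg hb]
          rw [this]
          exact hN b
      rw [← hf.sca M hMB a (d a) (hd a)]
      congr 1
      funext i b
      by_cases hb : b = a
      · subst hb
        rw [Matrix.updateCol_self]
        simp [hM, ha]
      · rw [Matrix.updateCol_ne hb]
        simp [hM, hb]
  have := key Finset.univ
  simp only [Finset.mem_univ, if_true] at this
  exact this

end good

end Pool.Agent.LibAC84H
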