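import Pool.Agent.LibAC84H.Fis
import Pool.Agent.LibAC84H.Defs

/-!
The polynomials of good functions, and their equivariance.
-/

open MvPolynomial Matrix
open scoped ComplexConjugate Classical

set_option linter.unusedSectionVars false

namespace Pool.Agent.LibAC84H

variable {C R D : Type} [DecidableEq C] [Fintype R] [DecidableEq R] [Fintype D] [DecidableEq D]

theorem eval_aeval' {I J : Type} (z : J → ℂ) (φ : I → MvPolynomial J ℂ) (P : MvPolynomial I ℂ) :
    eval z (aeval φ P) = eval (fun p => eval z (φ p)) P := by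
  induction P using MvPolynomial.induction_on with
  | C a => simp
  | add P Q h h' => simp only [map_add, h, h']
  | mul_X P s h => simp only [map_mul, h, aeval_X, eval_X]

/-- a polynomial with complex coefficients which vanishes at the integer points is zero -/
theorem zero_of_int {I : Type} (P : MvPolynomial I ℂ)
    (h : ∀ N : I → ℤ, eval (fun i => (N i : ℂ)) P = 0) : P = 0 := by
  refine MvPolynomial.funext_set (fun _ => Set.range ((↑) : ℤ → ℂ))
    (fun _ => Set.infinite_range_of_injective Int.cast_injective) fun x hx => ?_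
  have hx' : ∀ i, ∃ z : ℤ, (z : ℂ) = x i := fun i => hx i (Set.mem_univ i)
  choose N hN using hx'
  have : x = fun i => (N i : ℂ) := funext fun i => (hN i).symm
  rw [this, map_zero]
  exact h N

/-- density of the points `(x + y ω, x + y conj ω)` -/
theorem dens {I : Type} (ω : I → ℂ) (Q : MvPolynomial (I ⊕ I) ℂ)
    (h : ∀ x y : I → ℤ, eval (Sum.elim (fun i => (x i : ℂ) + y i * ω i)
      (fun i => (x i : ℂ) + y i * conj (ω i))) Q = 0)
    (X X' : I → ℂ) (hX : ∀ i, (ω i).im = 0 → X' i = X i) : eval (Sum.elim X X') Q = 0 := by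
  set φ : I ⊕ I → MvPolynomial (I ⊕ I) ℂ := Sum.elim
    (fun i => MvPolynomial.X (Sum.inl i) + MvPolynomial.C (ω i) * MvPolynomial.X (Sum.inr i))
    (fun i => MvPolynomial.X (Sum.inl i) + MvPolynomial.C (conj (ω i)) * MvPolynomial.X (Sum.inr i))
    with hφ
  have hzero : aeval φ Q = 0 := by
    refine zero_of_int _ fun z => ?_
    rw [eval_aeval', ← h (fun i => z (Sum.inl i)) (fun i => z (Sum.inr i))]
    congr 1
    congr 1
    funext i
    rcases i with i | i
    · simp [hφ, mul_comm]
    · simp [hφ, mul_comm]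
  have hev := congrArg (eval (Sum.elim
    (fun i => if (ω i).im = 0 then X i else
      (ω i * X' i - conj (ω i) * X i) * (ω i - conj (ω i))⁻¹)
    (fun i => if (ω i).im = 0 then 0 else (X i - X' i) * (ω i - conj (ω i))⁻¹))) hzero
  rw [eval_aeval', map_zero] at hev
  rw [← hev]
  congr 1
  congr 1
  funext i
  rcases i with i | i
  · by_cases hi : (ω i).im = 0
    · simp [hφ, hi]
    · have hne : ω i - conj (ω i) ≠ 0 := by
        intro h1
        apply hi
        have := congrArg Complex.im h1
        simp at this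
        linarith
      simp only [hφ, Sum.elim_inl, Sum.elim_inr, map_add, map_mul, eval_X, eval_C, if_neg hi]
      field_simp
      ring
  · by_cases hi : (ω i).im = 0
    · simp [hφ, hi, hX i hi]
    · have hne : ω i - conj (ω i) ≠ 0 := by
        intro h1
        apply hi
        have := congrArg Complex.im h1
        simp at this
        linarith
      simp only [hφ, Sum.elim_inl, Sum.elim_inr, map_add, map_mul, eval_X, eval_C, if_neg hi]
      field_simp
      ring

/-- the index type of the variables: the entries of a matrix and of its conjugate -/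
abbrev Vr (R D : Type) : Type := (R × D) ⊕ (R × D)

/-- the point given by two matrices -/
def pt2 {R D : Type} (N N' : Matrix R D ℂ) : Vr R D → ℂ :=
  Sum.elim (fun p => N p.1 p.2) (fun p => N' p.1 p.2)

/-- evaluation -/
noncomputable def ev (N N' : Matrix R D ℂ) (P : MvPolynomial (Vr R D) ℂ) : ℂ := eval (pt2 N N') P

/-- the block part of a matrix -/
noncomputable def prC (ρ : R → C) (τ : D → C) (N : Matrix R D ℂ) : Matrix R D ℂ :=
  fun i a => if ρ i = τ a then N i a else 0

/-- the block part of the second matrix; in the real blocks it is the one of the first matrix -/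
noncomputable def mx (o : Ord C) (ρ : R → C) (τ : D → C) (N N' : Matrix R D ℂ) : Matrix R D ℂ :=
  fun i a => if ρ i = τ a then (if o.cm (ρ i) then N' i a else N i a) else 0

theorem Blk.zero {o : Ord C} {ρ : R → C} {τ : D → C} {N : Matrix R D (ℤ × ℤ)} (h : Blk o ρ τ N)
    {i : R} {a : D} (hia : ρ i ≠ τ a) : N i a = 0 := (h a i).1 hia

theorem Blk.snd {o : Ord C} {ρ : R → C} {τ : D → C} {N : Matrix R D (ℤ × ℤ)} (h : Blk o ρ τ N)
    {i : R} (a : D) (hc : ¬ o.cm (ρ i)) : (N i a).2 = 0 := (h a i).2 hc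

theorem toC_apply (o : Ord C) (ρ : R → C) (N : Matrix R D (ℤ × ℤ)) (i : R) (a : D) :
    toC o ρ N i a = o.cx (ρ i) (N i a) := rfl

section
variable {o : Ord C} {ρ : R → C} {τ : D → C} (N N' : Matrix R D ℂ) {i : R} {a : D}

theorem prC_pos (h : ρ i = τ a) : prC ρ τ N i a = N i a := if_pos h

theorem prC_neg (h : ρ i ≠ τ a) : prC ρ τ N i a = 0 := if_neg h

theorem mx_cm (h : ρ i = τ a) (hc : o.cm (ρ i)) : mx o ρ τ N N' i a = N' i a := by
  unfold mx
  rw [if_pos h, if_pos hc]

theorem mx_re (h : ρ i = τ a) (hc : ¬ o.cm (ρ i)) : mx o ρ τ N N' i a = N i a := by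
  unfold mx
  rw [if_pos h, if_neg hc]

theorem mx_neg (h : ρ i ≠ τ a) : mx o ρ τ N N' i a = 0 := if_neg h

end

/-- the complex conjugate of a matrix -/
noncomputable def cj {R D : Type} (N : Matrix R D ℂ) : Matrix R D ℂ := fun i a => conj (N i a)

/-- the expressions of the two integral coordinates -/
noncomputable def phi0 (o : Ord C) (ρ : R → C) (τ : D → C) :
    Vr R D → MvPolynomial (Vr R D) ℂ := Sum.elim
  (fun p => if ρ p.1 = τ p.2 then (if o.cm (ρ p.1) then
      MvPolynomial.C ((o.ω (ρ p.1) - conj (o.ω (ρ p.1)))⁻¹) *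
      (MvPolynomial.C (o.ω (ρ p.1)) * X (Sum.inr p) -
        MvPolynomial.C (conj (o.ω (ρ p.1))) * X (Sum.inl p)) else X (Sum.inl p)) else 0)
  (fun p => if ρ p.1 = τ p.2 then (if o.cm (ρ p.1) then
      MvPolynomial.C ((o.ω (ρ p.1) - conj (o.ω (ρ p.1)))⁻¹) *
      (X (Sum.inl p) - X (Sum.inr p)) else 0) else 0)

theorem omega_real {o : Ord C} {c : C} (h : ¬ o.cm c) : (o.ω c).im = 0 := by
  unfold Ord.cm at h
  push Not at h
  exact h

section poly
variable {o : Ord C} {ρ : R → C} {τ : D → C} {f : Matrix R D (ℤ × ℤ) → ℚ} (hf : Good o ρ τ f)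

include hf in
/-- the polynomial in the integral coordinates -/
theorem Good.exists_poly0 : ∃ P : MvPolynomial (Vr R D) ℚ, ∀ N : Matrix R D (ℤ × ℤ),
    eval (Sum.elim (fun p => ((N p.1 p.2).1 : ℚ)) (fun p => ((N p.1 p.2).2 : ℚ))) P =
      f (pri o ρ τ N) := by
  obtain ⟨P, hP⟩ := Pool.Agent.LibAC84H.exists_poly (I := Vr R D)
    (fun z => f (pri o ρ τ (fun i a => (z (Sum.inl (i, a)), z (Sum.inr (i, a)))))) (by
    intro z s
    set M : Matrix R D (ℤ × ℤ) := fun i a => (z (Sum.inl (i, a)), z (Sum.inr (i, a))) with hM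
    -- the increment
    obtain ⟨i, a, e, hs⟩ : ∃ (i : R) (a : D) (e : ℤ × ℤ), ∀ x : ℤ,
        (fun i' a' => (Function.update z s (z s + x) (Sum.inl (i', a')),
          Function.update z s (z s + x) (Sum.inr (i', a'))) : Matrix R D (ℤ × ℤ)) =
        M.updateCol a ((fun i => M i a) + x • (Pi.single i e : R → ℤ × ℤ)) := by
      rcases s with ⟨i, a⟩ | ⟨i, a⟩
      · refine ⟨i, a, (1, 0), fun x => ?_⟩
        funext i' a'
        by_cases ha : a' = a
        · subst ha
          rw [Matrix.updateCol_self]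
          by_cases hi : i' = i
          · subst hi
            simp only [hM, Function.update_self, Pi.add_apply, Pi.smul_apply, Pi.single_eq_same]
            ext <;> simp
          · have h1 : (Sum.inl (i', a') : Vr R D) ≠ Sum.inl (i, a') := by
              intro h'; exact hi (Prod.ext_iff.1 (Sum.inl.inj h')).1
            simp [hM, Function.update_of_ne h1, Pi.single_eq_of_ne hi]
        · rw [Matrix.updateCol_ne ha]
          have h1 : (Sum.inl (i', a') : Vr R D) ≠ Sum.inl (i, a) := by
            intro h'; exact ha (Prod.ext_iff.1 (Sum.inl.inj h')).2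
          simp [hM, Function.update_of_ne h1]
      · refine ⟨i, a, (0, 1), fun x => ?_⟩
        funext i' a'
        by_cases ha : a' = a
        · subst ha
          rw [Matrix.updateCol_self]
          by_cases hi : i' = i
          · subst hi
            simp only [hM, Function.update_self, Pi.add_apply, Pi.smul_apply, Pi.single_eq_same]
            ext <;> simp
          · have h1 : (Sum.inr (i', a') : Vr R D) ≠ Sum.inr (i, a') := by
              intro h'; exact hi (Prod.ext_iff.1 (Sum.inr.inj h')).1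
            simp [hM, Function.update_of_ne h1, Pi.single_eq_of_ne hi]
        · rw [Matrix.updateCol_ne ha]
          have h1 : (Sum.inr (i', a') : Vr R D) ≠ Sum.inr (i, a) := by
            intro h'; exact ha (Prod.ext_iff.1 (Sum.inr.inj h')).2
          simp [hM, Function.update_of_ne h1]
    have hpri : ∀ u : R → ℤ × ℤ, pri o ρ τ (M.updateCol a u) =
        (pri o ρ τ M).updateCol a (prc o ρ (τ a) u) := by
      intro u
      funext i' a'
      by_cases ha : a' = a
      · subst ha
        rw [Matrix.updateCol_self, pri]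
        congr 1
        funext i''
        rw [Matrix.updateCol_self]
      · rw [Matrix.updateCol_ne ha, pri, pri]
        congr 1
        funext i''
        rw [Matrix.updateCol_ne ha]
    have key := hf.cub (pri o ρ τ M) (blk_pri M) a (prc o ρ (τ a) (fun i => M i a))
      (prc o ρ (τ a) (Pi.single i e)) (sup_prc _) (sup_prc _)
    have h3 : (pri o ρ τ M).updateCol a (prc o ρ (τ a) (fun i => M i a)) = pri o ρ τ M := by
      rw [← hpri, updateCol_eq]
    rw [h3, ← prc_zsmul, ← prc_zsmul, ← prc_add, ← prc_add, ← prc_add, ← hpri, ← hpri, ← hpri] at key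
    have h1 := hs 1
    rw [one_smul] at h1
    rw [← hs 3, ← hs 2, ← h1] at key
    exact key)
  refine ⟨P, fun N => ?_⟩
  have := hP (Sum.elim (fun p => (N p.1 p.2).1) (fun p => (N p.1 p.2).2))
  simp only [Sum.elim_inl, Sum.elim_inr] at this
  rw [← this]
  congr 1
  congr 1
  funext s
  rcases s with s | s <;> simp

include hf in
/-- the polynomial of a good function -/
theorem Good.exists_poly : ∃ P : MvPolynomial (Vr R D) ℂ,
    (∀ N : Matrix R D (ℤ × ℤ), Blk o ρ τ N →
      ev (toC o ρ N) (cj (toC o ρ N)) P = ((f N : ℚ) : ℂ)) ∧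
    ∀ N N' : Matrix R D ℂ, ev (prC ρ τ N) (mx o ρ τ N N') P = ev N N' P := by
  obtain ⟨P0, hP0⟩ := hf.exists_poly0
  refine ⟨aeval (phi0 o ρ τ) (MvPolynomial.map (algebraMap ℚ ℂ) P0), fun N hN => ?_,
    fun N N' => ?_⟩
  · rw [ev, eval_aeval', eval_map]
    have h1 := hP0 N
    rw [pri_of_blk hN] at h1
    rw [← h1]
    have h2 : ∀ z : Vr R D → ℚ, ((eval z P0 : ℚ) : ℂ) =
        eval₂ (algebraMap ℚ ℂ) (fun s => ((z s : ℚ) : ℂ)) P0 := by
      intro z
      exact MvPolynomial.eval₂_comp_left (algebraMap ℚ ℂ) (RingHom.id ℚ) z P0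
    rw [h2]
    congr 1
    funext s
    rcases s with ⟨i, a⟩ | ⟨i, a⟩
    · simp only [phi0, Sum.elim_inl]
      by_cases h3 : ρ i = τ a
      · rw [if_pos h3]
        by_cases h4 : o.cm (ρ i)
        · rw [if_pos h4]
          have hne := o.sub_ne _ h4
          simp only [map_mul, map_sub, eval_C, eval_X, pt2, Sum.elim_inl, Sum.elim_inr, cj, toC,
            Ord.cx, map_add, map_intCast]
          field_simp
          push_cast
          ring
        · rw [if_neg h4]
          simp only [eval_X, pt2, Sum.elim_inl, toC, Ord.cx]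
          rw [hN.snd a h4]
          simp
      · rw [if_neg h3, hN.zero h3]
        simp
    · simp only [phi0, Sum.elim_inr]
      by_cases h3 : ρ i = τ a
      · rw [if_pos h3]
        by_cases h4 : o.cm (ρ i)
        · rw [if_pos h4]
          have hne := o.sub_ne _ h4
          simp only [map_mul, map_sub, eval_C, eval_X, pt2, Sum.elim_inl, Sum.elim_inr, cj, toC,
            Ord.cx, map_add, map_intCast]
          field_simp
          push_cast
          ring
        · rw [if_neg h4, hN.snd a h4]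
          simp
      · rw [if_neg h3, hN.zero h3]
        simp
  · rw [ev, ev, eval_aeval', eval_aeval']
    congr 1
    congr 1
    funext s
    rcases s with ⟨i, a⟩ | ⟨i, a⟩
    · simp only [phi0, Sum.elim_inl]
      by_cases h3 : ρ i = τ a
      · rw [if_pos h3]
        by_cases h4 : o.cm (ρ i)
        · rw [if_pos h4]
          simp only [map_mul, map_sub, eval_C, eval_X, pt2, Sum.elim_inl, Sum.elim_inr,
            prC_pos _ h3, mx_cm _ _ h3 h4]
        · rw [if_neg h4]
          simp only [eval_X, pt2, Sum.elim_inl, prC_pos _ h3, map_zero]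
      · rw [if_neg h3, map_zero, map_zero]
    · simp only [phi0, Sum.elim_inr]
      by_cases h3 : ρ i = τ a
      · rw [if_pos h3]
        by_cases h4 : o.cm (ρ i)
        · rw [if_pos h4]
          simp only [map_mul, map_sub, eval_C, eval_X, pt2, Sum.elim_inl, Sum.elim_inr,
            prC_pos _ h3, mx_cm _ _ h3 h4]
        · rw [if_neg h4]
          simp only [eval_X, pt2, Sum.elim_inl, prC_pos _ h3, map_zero]
      · rw [if_neg h3, map_zero, map_zero]

end poly

/-! ### integral points -/

/-- the number `ω`, replaced by `0` if it is real -/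
noncomputable def Ord.om (o : Ord C) (c : C) : ℂ := if o.cm c then o.ω c else 0

/-- the pair, with the second component replaced by `0` in the real case -/
noncomputable def Ord.red (o : Ord C) (c : C) (p : ℤ × ℤ) : ℤ × ℤ := if o.cm c then p else (p.1, 0)

theorem Ord.cx_red (o : Ord C) (c : C) (p : ℤ × ℤ) :
    o.cx c (o.red c p) = p.1 + p.2 * o.om c := by
  unfold Ord.cx Ord.red Ord.om
  split_ifs <;> simp

theorem Ord.conj_cx_red (o : Ord C) (c : C) (p : ℤ × ℤ) :
    conj (o.cx c (o.red c p)) = p.1 + p.2 * conj (o.om c) := by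
  rw [o.cx_red, map_add, map_mul, map_intCast, map_intCast]

theorem Ord.red_snd (o : Ord C) (c : C) (p : ℤ × ℤ) (h : ¬ o.cm c) : (o.red c p).2 = 0 := by
  unfold Ord.red
  rw [if_neg h]

theorem Ord.om_im (o : Ord C) (c : C) : (o.om c).im = 0 ↔ ¬ o.cm c := by
  unfold Ord.om
  split_ifs with h
  · constructor
    · intro h1; exact absurd h1 h
    · intro h1; exact absurd h h1
  · simp [h]

section int
variable {o : Ord C} {ρ : R → C} {τ : D → C}

theorem pri_pos (N : Matrix R D (ℤ × ℤ)) {i : R} {a : D} (h : ρ i = τ a) :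
    pri o ρ τ N i a = o.red (ρ i) (N i a) := by
  unfold pri Ord.red
  by_cases hc : o.cm (ρ i)
  · rw [prc_cm _ h hc, if_pos hc]
  · rw [prc_re _ h hc, if_neg hc]

theorem pri_neg (N : Matrix R D (ℤ × ℤ)) {i : R} {a : D} (h : ρ i ≠ τ a) :
    pri o ρ τ N i a = 0 := prc_ne _ h

/-- the complex matrix of a pair of integer matrices -/
noncomputable def toC' (o : Ord C) (ρ : R → C) (N : Matrix R D (ℤ × ℤ)) : Matrix R D ℂ :=
  fun i a => (N i a).1 + (N i a).2 * o.om (ρ i)

theorem prC_toC' (N : Matrix R D (ℤ × ℤ)) :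
    prC ρ τ (toC' o ρ N) = toC o ρ (pri o ρ τ N) := by
  funext i a
  by_cases h : ρ i = τ a
  · rw [prC_pos _ h, toC, pri_pos _ h, o.cx_red]
    rfl
  · rw [prC_neg _ h, toC, pri_neg _ h, o.cx_zero]

theorem cj_apply {R D : Type} (N : Matrix R D ℂ) (i : R) (a : D) : cj N i a = conj (N i a) := rfl

/-- a pair of matrices, the second being the conjugate of the first one up to the irrelevant
entries -/
theorem ev_of_prC {P : MvPolynomial (Vr R D) ℂ}
    (hP : ∀ N N' : Matrix R D ℂ, ev (prC ρ τ N) (mx o ρ τ N N') P = ev N N' P)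
    (X X' : Matrix R D ℂ) (N : Matrix R D (ℤ × ℤ)) (hN : Blk o ρ τ N)
    (h : ∀ i a, ρ i = τ a → X i a = toC o ρ N i a)
    (h' : ∀ i a, ρ i = τ a → o.cm (ρ i) → X' i a = conj (toC o ρ N i a)) :
    ev X X' P = ev (toC o ρ N) (cj (toC o ρ N)) P := by
  rw [← hP, ← hP (toC o ρ N)]
  have e1 : prC ρ τ X = prC ρ τ (toC o ρ N) := by
    funext i a
    by_cases h1 : ρ i = τ a
    · rw [prC_pos _ h1, prC_pos _ h1, h i a h1]
    · rw [prC_neg _ h1, prC_neg _ h1]
  have e2 : mx o ρ τ X X' = mx o ρ τ (toC o ρ N) (cj (toC o ρ N)) := by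
    funext i a
    by_cases h1 : ρ i = τ a
    · by_cases hc : o.cm (ρ i)
      · rw [mx_cm _ _ h1 hc, mx_cm _ _ h1 hc, h' i a h1 hc, cj_apply]
      · rw [mx_re _ _ h1 hc, mx_re _ _ h1 hc, h i a h1]
    · rw [mx_neg _ _ h1, mx_neg _ _ h1]
  rw [e1, e2]

theorem toC_transvection (N : Matrix R D (ℤ × ℤ)) (hN : Blk o ρ τ N) (a b : D) (h : τ a = τ b)
    (p : ℤ × ℤ) (i : R) : toC o ρ N i b + o.cx (τ a) p * toC o ρ N i a =
      toC o ρ (N.updateCol b (fun i => N i b + o.mul (τ a) (N i a) p)) i b := by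
  rw [toC, toC, toC, Matrix.updateCol_self]
  by_cases h1 : ρ i = τ a
  · rw [h1, o.cx_add, o.cx_mul]
    ring
  · have h2 : ρ i ≠ τ b := fun h3 => h1 (h3.trans h.symm)
    rw [hN.zero h1, hN.zero h2]
    simp [Ord.cx, Ord.mul, Ord.mw]

theorem toC_diag (N : Matrix R D (ℤ × ℤ)) (hN : Blk o ρ τ N) (d : D → ℤ × ℤ) (i : R) (a : D) :
    toC o ρ N i a * o.cx (τ a) (d a) =
      toC o ρ (fun i a => o.mul (τ a) (N i a) (d a)) i a := by
  show o.cx (ρ i) (N i a) * o.cx (τ a) (d a) = o.cx (ρ i) (o.mul (τ a) (N i a) (d a))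
  by_cases h1 : ρ i = τ a
  · rw [h1, o.cx_mul]
  · rw [hN.zero h1]
    simp [Ord.cx, Ord.mul, Ord.mw]

end int

/-! ### equivariance -/

/-- the pairs of matrices `(T, T')` with `P (N T, N' T') = det T det T' P (N, N')` -/
def Nice (P : MvPolynomial (Vr R D) ℂ) (T T' : Matrix D D ℂ) : Prop :=
  ∀ N N' : Matrix R D ℂ, ev (N * T) (N' * T') P = T.det * T'.det * ev N N' P

theorem Nice.mul {P : MvPolynomial (Vr R D) ℂ} {S T S' T' : Matrix D D ℂ} (hS : Nice P S S')
    (hT : Nice P T T') : Nice P (S * T) (S' * T') := by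
  intro N N'
  rw [← Matrix.mul_assoc, ← Matrix.mul_assoc, hT, hS, Matrix.det_mul, Matrix.det_mul]
  ring

section nice
variable {o : Ord C} {ρ : R → C} {τ : D → C} {f : Matrix R D (ℤ × ℤ) → ℚ} (hf : Good o ρ τ f)
  {P : MvPolynomial (Vr R D) ℂ}
  (hP : ∀ N : Matrix R D (ℤ × ℤ), Blk o ρ τ N → ev (toC o ρ N) (cj (toC o ρ N)) P = ((f N : ℚ) : ℂ))
  (hP' : ∀ N N' : Matrix R D ℂ, ev (prC ρ τ N) (mx o ρ τ N N') P = ev N N' P)
include hf hP hP'

theorem nice_transvection (a b : D) (hab : a ≠ b) (h : τ a = τ b) (t t' : ℂ)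
    (ht : ¬ o.cm (τ a) → t' = t) : Nice P (transvection a b t) (transvection a b t') := by
  intro N N'
  rw [det_transvection_of_ne _ _ hab, det_transvection_of_ne _ _ hab, one_mul, one_mul]
  -- the polynomial identity
  set I := (R × D) ⊕ Unit with hI
  set ω : I → ℂ := Sum.elim (fun p => o.om (ρ p.1)) (fun _ => o.om (τ a)) with hω
  let φ : Vr R D → MvPolynomial (I ⊕ I) ℂ := Sum.elim
    (fun p => X (Sum.inl (Sum.inl p)) + if p.2 = b then X (Sum.inl (Sum.inr ())) *
      X (Sum.inl (Sum.inl (p.1, a))) else 0)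
    (fun p => X (Sum.inr (Sum.inl p)) + if p.2 = b then X (Sum.inr (Sum.inr ())) *
      X (Sum.inr (Sum.inl (p.1, a))) else 0)
  let ψ : Vr R D → MvPolynomial (I ⊕ I) ℂ := Sum.elim
    (fun p => X (Sum.inl (Sum.inl p))) (fun p => X (Sum.inr (Sum.inl p)))
  have hev : ∀ (Z Z' : Matrix R D ℂ) (s s' : ℂ),
      eval (Sum.elim (Sum.elim (fun p => Z p.1 p.2) (fun _ => s))
        (Sum.elim (fun p => Z' p.1 p.2) (fun _ => s'))) (aeval φ P) =
      ev (Z * transvection a b s) (Z' * transvection a b s') P := by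
    intro Z Z' s s'
    rw [eval_aeval', ev]
    congr 1
    congr 1
    funext q
    rcases q with ⟨i, b'⟩ | ⟨i, b'⟩
    · simp only [φ, pt2, Sum.elim_inl, map_add, eval_X]
      by_cases hb : b' = b
      · subst hb
        rw [mul_transvection_apply_same]
        simp
      · rw [mul_transvection_apply_of_ne _ _ _ _ hb]
        simp [hb]
    · simp only [φ, pt2, Sum.elim_inr, map_add, eval_X]
      by_cases hb : b' = b
      · subst hb
        rw [mul_transvection_apply_same]
        simp
      · rw [mul_transvection_apply_of_ne _ _ _ _ hb]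
        simp [hb]
  have hev' : ∀ (Z Z' : Matrix R D ℂ) (s s' : ℂ),
      eval (Sum.elim (Sum.elim (fun p => Z p.1 p.2) (fun _ => s))
        (Sum.elim (fun p => Z' p.1 p.2) (fun _ => s'))) (aeval ψ P) = ev Z Z' P := by
    intro Z Z' s s'
    rw [eval_aeval', ev]
    congr 1
    congr 1
    funext q
    rcases q with ⟨i, b'⟩ | ⟨i, b'⟩
    · simp [ψ, pt2]
    · simp [ψ, pt2]
  have key : ∀ x y : I → ℤ, eval (Sum.elim (fun i => (x i : ℂ) + y i * ω i)
      (fun i => (x i : ℂ) + y i * conj (ω i))) (aeval φ P - aeval ψ P) = 0 := by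
    intro x y
    obtain ⟨A, hA⟩ : ∃ A : Matrix R D (ℤ × ℤ), ∀ i a, A i a = (x (Sum.inl (i, a)), y (Sum.inl (i, a))) :=
      ⟨fun i a => (x (Sum.inl (i, a)), y (Sum.inl (i, a))), fun _ _ => rfl⟩
    set p : ℤ × ℤ := (x (Sum.inr ()), y (Sum.inr ())) with hp
    set q := o.red (τ a) p with hq
    have e1 : (Sum.elim (fun i => (x i : ℂ) + y i * ω i) (fun i => (x i : ℂ) + y i * conj (ω i)) :
        I ⊕ I → ℂ) = Sum.elim (Sum.elim (fun p => toC' o ρ A p.1 p.2) (fun _ => o.cx (τ a) q))
        (Sum.elim (fun p => cj (toC' o ρ A) p.1 p.2) (fun _ => conj (o.cx (τ a) q))) := by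
      funext s
      rcases s with (⟨i, a'⟩ | u) | (⟨i, a'⟩ | u)
      · simp [hω, toC', hA]
      · simp [hω, hq, o.cx_red, hp]
      · simp [hω, toC', hA, cj]
      · simp only [Sum.elim_inr, hq, o.conj_cx_red, hp, hω]
    rw [e1, map_sub, hev, hev']
    set B := pri o ρ τ A with hB
    have hBB : Blk o ρ τ B := blk_pri A
    have hAB : ∀ i a', ρ i = τ a' → toC' o ρ A i a' = toC o ρ B i a' := by
      intro i a' h1
      have := congrFun (congrFun (prC_toC' (o := o) (ρ := ρ) (τ := τ) A) i) a'
      rw [prC_pos _ h1] at this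
      exact this
    have h2 := ev_of_prC hP' (toC' o ρ A) (cj (toC' o ρ A)) B hBB hAB
      (fun i a' h1 _ => by rw [cj_apply, hAB i a' h1])
    have hsup : Sup o ρ (τ b) (fun i => B i b + o.mul (τ a) (B i a) q) := by
      refine (hBB b).add ?_
      by_cases hc : o.cm (τ a)
      · rw [← h]
        exact ((hBB a).zsmul q.1).add (((hBB a).mw hc).zsmul q.2)
      · have : (fun i => o.mul (τ a) (B i a) q : R → ℤ × ℤ) = q.1 • (fun i => B i a) := by
          funext i
          unfold Ord.mul
          rw [hq, o.red_snd _ _ hc, zero_smul, add_zero]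
          rfl
        rw [this, ← h]
        exact (hBB a).zsmul _
    have h3 := ev_of_prC hP' (toC' o ρ A * transvection a b (o.cx (τ a) q))
      (cj (toC' o ρ A) * transvection a b (conj (o.cx (τ a) q)))
      (B.updateCol b (fun i => B i b + o.mul (τ a) (B i a) q)) (hBB.updateCol hsup)
      (fun i b' h1 => by
        by_cases hb : b' = b
        · subst hb
          rw [mul_transvection_apply_same, ← toC_transvection B hBB a b' h, hAB i b' h1,
            hAB i a (h1.trans h.symm)]
        · rw [mul_transvection_apply_of_ne _ _ _ _ hb, hAB i b' h1, toC, toC,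
            Matrix.updateCol_ne hb])
      (fun i b' h1 _ => by
        by_cases hb : b' = b
        · subst hb
          rw [mul_transvection_apply_same, ← toC_transvection B hBB a b' h, cj_apply, cj_apply,
            hAB i b' h1, hAB i a (h1.trans h.symm), map_add, map_mul]
        · rw [mul_transvection_apply_of_ne _ _ _ _ hb, cj_apply, hAB i b' h1, toC, toC,
            Matrix.updateCol_ne hb])
    rw [h2, h3, hP _ hBB, hP _ (hBB.updateCol hsup), hf.colp B hBB a b hab h q
      (fun hc => by rw [hq]; exact o.red_snd _ _ hc), sub_self]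
  have hfin := dens ω (aeval φ P - aeval ψ P) key
    (Sum.elim (fun p => N p.1 p.2) (fun _ => t))
    (Sum.elim (fun p => mx o ρ τ N N' p.1 p.2 + if ρ p.1 = τ p.2 then 0 else N p.1 p.2)
      (fun _ => t')) (by
      intro s hs
      rcases s with ⟨i, a'⟩ | u
      · simp only [hω, Sum.elim_inl] at hs ⊢
        have hc := (o.om_im _).1 hs
        by_cases h1 : ρ i = τ a'
        · rw [mx_re _ _ h1 hc, if_pos h1, add_zero]
        · rw [mx_neg _ _ h1, if_neg h1, zero_add]
      · simp only [hω, Sum.elim_inr] at hs ⊢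
        exact ht ((o.om_im _).1 hs))
  obtain ⟨N'', hN''⟩ : ∃ N'' : Matrix R D ℂ, ∀ i a', N'' i a' =
      mx o ρ τ N N' i a' + if ρ i = τ a' then 0 else N i a' :=
    ⟨fun i a' => mx o ρ τ N N' i a' + if ρ i = τ a' then 0 else N i a', fun _ _ => rfl⟩
  have e2 : (Sum.elim (fun p => mx o ρ τ N N' p.1 p.2 + if ρ p.1 = τ p.2 then 0 else N p.1 p.2)
      (fun _ => t') : I → ℂ) = Sum.elim (fun p => N'' p.1 p.2) (fun _ => t') := by
    funext s
    rcases s with ⟨i, a'⟩ | u
    · simp only [Sum.elim_inl, hN'']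
    · rfl
  rw [e2, map_sub, hev, hev', sub_eq_zero] at hfin
  -- replace `N''` by `N'`
  have hmx : mx o ρ τ N N'' = mx o ρ τ N N' := by
    funext i a'
    by_cases h1 : ρ i = τ a'
    · by_cases hc : o.cm (ρ i)
      · rw [mx_cm _ _ h1 hc, mx_cm _ _ h1 hc, hN'', mx_cm _ _ h1 hc, if_pos h1, add_zero]
      · rw [mx_re _ _ h1 hc, mx_re _ _ h1 hc]
    · rw [mx_neg _ _ h1, mx_neg _ _ h1]
  have hmx2 : mx o ρ τ (N * transvection a b t) (N'' * transvection a b t') =
      mx o ρ τ (N * transvection a b t) (N' * transvection a b t') := by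
    funext i b'
    by_cases h1 : ρ i = τ b'
    · by_cases hc : o.cm (ρ i)
      · rw [mx_cm _ _ h1 hc, mx_cm _ _ h1 hc]
        have e3 : ∀ a', ρ i = τ a' → N'' i a' = N' i a' := by
          intro a' h2
          rw [hN'', mx_cm _ _ h2 hc, if_pos h2, add_zero]
        by_cases hb : b' = b
        · subst hb
          rw [mul_transvection_apply_same, mul_transvection_apply_same, e3 _ h1,
            e3 _ (h1.trans h.symm)]
        · rw [mul_transvection_apply_of_ne _ _ _ _ hb, mul_transvection_apply_of_ne _ _ _ _ hb,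
            e3 _ h1]
      · rw [mx_re _ _ h1 hc, mx_re _ _ h1 hc]
    · rw [mx_neg _ _ h1, mx_neg _ _ h1]
  rw [← hP', ← hmx2, hP', hfin, ← hP', hmx, hP']

theorem nice_diagonal (d d' : D → ℂ) (hd : ∀ a, ¬ o.cm (τ a) → d' a = d a) :
    Nice P (diagonal d) (diagonal d') := by
  intro N N'
  rw [det_diagonal, det_diagonal]
  set I := (R × D) ⊕ D with hI
  set ω : I → ℂ := Sum.elim (fun p => o.om (ρ p.1)) (fun a => o.om (τ a)) with hω
  let φ : Vr R D → MvPolynomial (I ⊕ I) ℂ := Sum.elim
    (fun p => X (Sum.inl (Sum.inl p)) * X (Sum.inl (Sum.inr p.2)))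
    (fun p => X (Sum.inr (Sum.inl p)) * X (Sum.inr (Sum.inr p.2)))
  let ψ : Vr R D → MvPolynomial (I ⊕ I) ℂ := Sum.elim
    (fun p => X (Sum.inl (Sum.inl p))) (fun p => X (Sum.inr (Sum.inl p)))
  let Δ : MvPolynomial (I ⊕ I) ℂ := (∏ a, X (Sum.inl (Sum.inr a))) * ∏ a, X (Sum.inr (Sum.inr a))
  have hev : ∀ (Z Z' : Matrix R D ℂ) (s s' : D → ℂ),
      eval (Sum.elim (Sum.elim (fun p => Z p.1 p.2) s)
        (Sum.elim (fun p => Z' p.1 p.2) s')) (aeval φ P) =
      ev (Z * diagonal s) (Z' * diagonal s') P := by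
    intro Z Z' s s'
    rw [eval_aeval', ev]
    congr 1
    congr 1
    funext q
    rcases q with ⟨i, b'⟩ | ⟨i, b'⟩
    · simp [φ, pt2]
    · simp [φ, pt2]
  have hev' : ∀ (Z Z' : Matrix R D ℂ) (s s' : D → ℂ),
      eval (Sum.elim (Sum.elim (fun p => Z p.1 p.2) s)
        (Sum.elim (fun p => Z' p.1 p.2) s')) (aeval ψ P) = ev Z Z' P := by
    intro Z Z' s s'
    rw [eval_aeval', ev]
    congr 1
    congr 1
    funext q
    rcases q with ⟨i, b'⟩ | ⟨i, b'⟩
    · simp [ψ, pt2]
    · simp [ψ, pt2]
  have hevD : ∀ (Z Z' : Matrix R D ℂ) (s s' : D → ℂ),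
      eval (Sum.elim (Sum.elim (fun p => Z p.1 p.2) s)
        (Sum.elim (fun p => Z' p.1 p.2) s')) Δ = (∏ a, s a) * ∏ a, s' a := by
    intro Z Z' s s'
    simp [Δ]
  have key : ∀ x y : I → ℤ, eval (Sum.elim (fun i => (x i : ℂ) + y i * ω i)
      (fun i => (x i : ℂ) + y i * conj (ω i))) (aeval φ P - Δ * aeval ψ P) = 0 := by
    intro x y
    obtain ⟨A, hA⟩ : ∃ A : Matrix R D (ℤ × ℤ), ∀ i a, A i a = (x (Sum.inl (i, a)), y (Sum.inl (i, a))) :=
      ⟨fun i a => (x (Sum.inl (i, a)), y (Sum.inl (i, a))), fun _ _ => rfl⟩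
    set q : D → ℤ × ℤ := fun a => o.red (τ a) (x (Sum.inr a), y (Sum.inr a)) with hq
    have e1 : (Sum.elim (fun i => (x i : ℂ) + y i * ω i) (fun i => (x i : ℂ) + y i * conj (ω i)) :
        I ⊕ I → ℂ) = Sum.elim (Sum.elim (fun p => toC' o ρ A p.1 p.2) (fun a => o.cx (τ a) (q a)))
        (Sum.elim (fun p => cj (toC' o ρ A) p.1 p.2) (fun a => conj (o.cx (τ a) (q a)))) := by
      funext s
      rcases s with (⟨i, a'⟩ | u) | (⟨i, a'⟩ | u)
      · simp [hω, toC', hA]
      · simp only [Sum.elim_inl, Sum.elim_inr, hq, o.cx_red, hω]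
      · simp [hω, toC', hA, cj]
      · simp only [Sum.elim_inr, hq, o.conj_cx_red, hω]
    rw [e1, map_sub, map_mul, hev, hev', hevD]
    set B := pri o ρ τ A with hB
    have hBB : Blk o ρ τ B := blk_pri A
    have hAB : ∀ i a', ρ i = τ a' → toC' o ρ A i a' = toC o ρ B i a' := by
      intro i a' h1
      have := congrFun (congrFun (prC_toC' (o := o) (ρ := ρ) (τ := τ) A) i) a'
      rw [prC_pos _ h1] at this
      exact this
    have hq2 : ∀ a, ¬ o.cm (τ a) → (q a).2 = 0 := fun a hc => by
      rw [hq]; exact o.red_snd _ _ hc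
    have h2 := ev_of_prC hP' (toC' o ρ A) (cj (toC' o ρ A)) B hBB hAB
      (fun i a' h1 _ => by rw [cj_apply, hAB i a' h1])
    have hBq : Blk o ρ τ (fun i a => o.mul (τ a) (B i a) (q a)) := by
      intro a
      by_cases hc : o.cm (τ a)
      · exact ((hBB a).zsmul (q a).1).add (((hBB a).mw hc).zsmul (q a).2)
      · have : (fun i => o.mul (τ a) (B i a) (q a) : R → ℤ × ℤ) = (q a).1 • (fun i => B i a) := by
          funext i
          unfold Ord.mul
          rw [hq2 a hc, zero_smul, add_zero]
          rfl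
        show Sup o ρ (τ a) (fun i => o.mul (τ a) (B i a) (q a))
        rw [this]
        exact (hBB a).zsmul _
    have h3 := ev_of_prC hP' (toC' o ρ A * diagonal (fun a => o.cx (τ a) (q a)))
      (cj (toC' o ρ A) * diagonal (fun a => conj (o.cx (τ a) (q a))))
      (fun i a => o.mul (τ a) (B i a) (q a)) hBq
      (fun i b' h1 => by
        rw [Matrix.mul_diagonal, hAB i b' h1, toC_diag B hBB q])
      (fun i b' h1 _ => by
        rw [Matrix.mul_diagonal, cj_apply, hAB i b' h1, ← toC_diag B hBB q, map_mul])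
    rw [h2, h3, hP _ hBB, hP _ hBq, hf.diag B hBB q hq2, ← Finset.prod_mul_distrib]
    push_cast
    rw [sub_eq_zero]
    congr 1
    refine Finset.prod_congr rfl fun a _ => ?_
    exact o.nm_eq (τ a) (q a)
  have hfin := dens ω (aeval φ P - Δ * aeval ψ P) key
    (Sum.elim (fun p => N p.1 p.2) d)
    (Sum.elim (fun p => mx o ρ τ N N' p.1 p.2 + if ρ p.1 = τ p.2 then 0 else N p.1 p.2)
      d') (by
      intro s hs
      rcases s with ⟨i, a'⟩ | u
      · simp only [hω, Sum.elim_inl] at hs ⊢
        have hc := (o.om_im _).1 hs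
        by_cases h1 : ρ i = τ a'
        · rw [mx_re _ _ h1 hc, if_pos h1, add_zero]
        · rw [mx_neg _ _ h1, if_neg h1, zero_add]
      · simp only [hω, Sum.elim_inr] at hs ⊢
        exact hd u ((o.om_im _).1 hs))
  obtain ⟨N'', hN''⟩ : ∃ N'' : Matrix R D ℂ, ∀ i a', N'' i a' =
      mx o ρ τ N N' i a' + if ρ i = τ a' then 0 else N i a' :=
    ⟨fun i a' => mx o ρ τ N N' i a' + if ρ i = τ a' then 0 else N i a', fun _ _ => rfl⟩
  have e2 : (Sum.elim (fun p => mx o ρ τ N N' p.1 p.2 + if ρ p.1 = τ p.2 then 0 else N p.1 p.2)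
      d' : I → ℂ) = Sum.elim (fun p => N'' p.1 p.2) d' := by
    funext s
    rcases s with ⟨i, a'⟩ | u
    · simp only [Sum.elim_inl, hN'']
    · rfl
  rw [e2, map_sub, map_mul, hev, hev', hevD, sub_eq_zero] at hfin
  have hmx : mx o ρ τ N N'' = mx o ρ τ N N' := by
    funext i a'
    by_cases h1 : ρ i = τ a'
    · by_cases hc : o.cm (ρ i)
      · rw [mx_cm _ _ h1 hc, mx_cm _ _ h1 hc, hN'', mx_cm _ _ h1 hc, if_pos h1, add_zero]
      · rw [mx_re _ _ h1 hc, mx_re _ _ h1 hc]
    · rw [mx_neg _ _ h1, mx_neg _ _ h1]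
  have hmx2 : mx o ρ τ (N * diagonal d) (N'' * diagonal d') =
      mx o ρ τ (N * diagonal d) (N' * diagonal d') := by
    funext i b'
    by_cases h1 : ρ i = τ b'
    · by_cases hc : o.cm (ρ i)
      · rw [mx_cm _ _ h1 hc, mx_cm _ _ h1 hc, Matrix.mul_diagonal, Matrix.mul_diagonal, hN'',
          mx_cm _ _ h1 hc, if_pos h1, add_zero]
      · rw [mx_re _ _ h1 hc, mx_re _ _ h1 hc]
    · rw [mx_neg _ _ h1, mx_neg _ _ h1]
  rw [← hP', ← hmx2, hP', hfin]
  congr 1
  rw [← hP', hmx, hP']

/-- the matrix which is `S` on a block and the identity outside -/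
noncomputable def inj (τ : D → C) (c : C) (S : Matrix {a // τ a = c} {a // τ a = c} ℂ) :
    Matrix D D ℂ :=
  Matrix.reindex (Equiv.sumCompl _) (Equiv.sumCompl _) (Matrix.fromBlocks S 0 0 1)

omit hf hP hP' in
theorem inj_mul (c : C) (S T : Matrix {a // τ a = c} {a // τ a = c} ℂ) :
    inj τ c (S * T) = inj τ c S * inj τ c T := by
  unfold inj
  rw [Matrix.reindex_apply, Matrix.reindex_apply, Matrix.reindex_apply,
    Matrix.submatrix_mul_equiv, Matrix.fromBlocks_multiply]
  simp

omit hf hP hP' in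
theorem inj_apply (c : C) (S : Matrix {a // τ a = c} {a // τ a = c} ℂ) (a b : D) :
    inj τ c S a b = if h : τ a = c ∧ τ b = c then S ⟨a, h.1⟩ ⟨b, h.2⟩ else (1 : Matrix D D ℂ) a b := by
  unfold inj
  rw [Matrix.reindex_apply, Matrix.submatrix_apply]
  by_cases ha : τ a = c
  · rw [Equiv.sumCompl_symm_apply_of_pos (p := fun a => τ a = c) ha]
    by_cases hb : τ b = c
    · rw [Equiv.sumCompl_symm_apply_of_pos (p := fun a => τ a = c) hb, dif_pos ⟨ha, hb⟩]
      rfl
    · rw [Equiv.sumCompl_symm_apply_of_neg (p := fun a => τ a = c) hb,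
        dif_neg (fun h => hb h.2), Matrix.one_apply_ne (fun h : a = b => hb (by rw [← h]; exact ha))]
      rfl
  · rw [Equiv.sumCompl_symm_apply_of_neg (p := fun a => τ a = c) ha, dif_neg (fun h => ha h.1)]
    by_cases hb : τ b = c
    · rw [Equiv.sumCompl_symm_apply_of_pos (p := fun a => τ a = c) hb,
        Matrix.one_apply_ne (fun h : a = b => ha (by rw [h]; exact hb))]
      rfl
    · rw [Equiv.sumCompl_symm_apply_of_neg (p := fun a => τ a = c) hb,
        Matrix.fromBlocks_apply₂₂, Matrix.one_apply, Matrix.one_apply]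
      simp

omit hf hP hP' in
theorem inj_one (c : C) : inj τ c (1 : Matrix {a // τ a = c} {a // τ a = c} ℂ) = 1 := by
  unfold inj
  rw [Matrix.fromBlocks_one, Matrix.reindex_apply, Matrix.submatrix_one_equiv]

omit hf hP hP' in
theorem inj_diagonal (c : C) (d : {a // τ a = c} → ℂ) :
    inj τ c (diagonal d) = diagonal fun a => if h : τ a = c then d ⟨a, h⟩ else 1 := by
  funext a b
  rw [inj_apply]
  by_cases hab : a = b
  · subst hab
    by_cases h : τ a = c
    · rw [dif_pos ⟨h, h⟩, Matrix.diagonal_apply_eq, Matrix.diagonal_apply_eq, dif_pos h]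
    · rw [dif_neg (fun h' => h h'.1), Matrix.one_apply_eq, Matrix.diagonal_apply_eq, dif_neg h]
  · rw [Matrix.diagonal_apply_ne _ hab]
    by_cases h : τ a = c ∧ τ b = c
    · rw [dif_pos h, Matrix.diagonal_apply_ne]
      intro h'
      exact hab (Subtype.ext_iff.1 h')
    · rw [dif_neg h, Matrix.one_apply_ne hab]

omit hf hP hP' in
theorem inj_transvection (c : C) (t : TransvectionStruct {a // τ a = c} ℂ) :
    inj τ c t.toMatrix = transvection (t.i : D) (t.j : D) t.c := by
  funext a b
  rw [inj_apply]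
  unfold TransvectionStruct.toMatrix transvection
  rw [Matrix.add_apply]
  by_cases h : τ a = c ∧ τ b = c
  · rw [dif_pos h, Matrix.add_apply]
    congr 1
    · rw [Matrix.one_apply, Matrix.one_apply]
      simp [Subtype.ext_iff]
    · rw [Matrix.single_apply, Matrix.single_apply]
      simp [Subtype.ext_iff]
  · rw [dif_neg h, Matrix.single_apply_of_ne, add_zero]
    rintro ⟨h1, h2⟩
    exact h ⟨h1 ▸ t.i.2, h2 ▸ t.j.2⟩

omit hf hP hP' in
theorem diag_one_eq : (diagonal fun _ : D => (1 : ℂ)) = 1 := Matrix.diagonal_one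

theorem nice_inj_re (c : C) (S : Matrix {a // τ a = c} {a // τ a = c} ℂ) :
    Nice P (inj τ c S) (inj τ c S) := by
  refine Matrix.diagonal_transvection_induction (fun S => Nice P (inj τ c S) (inj τ c S)) S ?_ ?_ ?_
  · intro d _
    rw [inj_diagonal]
    exact nice_diagonal hf hP hP' _ _ (fun a _ => rfl)
  · intro t
    rw [inj_transvection]
    exact nice_transvection hf hP hP' _ _ (fun h => t.hij (Subtype.ext h))
      (t.i.2.trans t.j.2.symm) _ _ (fun _ => rfl)
  · intro A B hA hB
    rw [inj_mul]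
    exact hA.mul hB

theorem nice_inj_left (c : C) (hc : o.cm c) (S : Matrix {a // τ a = c} {a // τ a = c} ℂ) :
    Nice P (inj τ c S) 1 := by
  refine Matrix.diagonal_transvection_induction (fun S => Nice P (inj τ c S) 1) S ?_ ?_ ?_
  · intro d _
    rw [inj_diagonal, ← diag_one_eq]
    refine nice_diagonal hf hP hP' _ _ (fun a ha => ?_)
    rw [dif_neg]
    intro h
    rw [h] at ha
    exact ha hc
  · intro t
    rw [inj_transvection, ← transvection_zero (t.i : D) (t.j : D)]
    refine nice_transvection hf hP hP' _ _ (fun h => t.hij (Subtype.ext h))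
      (t.i.2.trans t.j.2.symm) _ _ (fun h => ?_)
    rw [t.i.2] at h
    exact absurd hc h
  · intro A B hA hB
    rw [inj_mul, ← Matrix.mul_one (1 : Matrix D D ℂ)]
    exact hA.mul hB

theorem nice_inj_right (c : C) (hc : o.cm c) (S : Matrix {a // τ a = c} {a // τ a = c} ℂ) :
    Nice P 1 (inj τ c S) := by
  refine Matrix.diagonal_transvection_induction (fun S => Nice P 1 (inj τ c S)) S ?_ ?_ ?_
  · intro d _
    rw [inj_diagonal, ← diag_one_eq]
    refine nice_diagonal hf hP hP' _ _ (fun a ha => ?_)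
    rw [dif_neg]
    intro h
    rw [h] at ha
    exact ha hc
  · intro t
    rw [inj_transvection, ← transvection_zero (t.i : D) (t.j : D)]
    refine nice_transvection hf hP hP' _ _ (fun h => t.hij (Subtype.ext h))
      (t.i.2.trans t.j.2.symm) _ _ (fun h => ?_)
    rw [t.i.2] at h
    exact absurd hc h
  · intro A B hA hB
    rw [inj_mul, ← Matrix.mul_one (1 : Matrix D D ℂ)]
    exact hA.mul hB

/-- complex block matrices -/
def BlkC (τ : D → C) (T : Matrix D D ℂ) : Prop := ∀ a b, τ a ≠ τ b → T a b = 0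

theorem nice_of_blk (T T' : Matrix D D ℂ) (hT : BlkC τ T) (hT' : BlkC τ T')
    (hre : ∀ a b, ¬ o.cm (τ a) → T' a b = T a b) : Nice P T T' := by
  have key : ∀ S : Finset C, ∀ T T' : Matrix D D ℂ, BlkC τ T → BlkC τ T' →
      (∀ a b, ¬ o.cm (τ a) → T' a b = T a b) →
      (∀ a b, τ a ∉ S → T a b = (1 : Matrix D D ℂ) a b) →
      (∀ a b, τ a ∉ S → T' a b = (1 : Matrix D D ℂ) a b) → Nice P T T' := by
    intro S
    induction S using Finset.induction_on with
    | empty =>
      intro T T' _ _ _ h h'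
      have h1 : T = 1 := by
        funext a b
        exact h a b (Finset.notMem_empty _)
      have h2 : T' = 1 := by
        funext a b
        exact h' a b (Finset.notMem_empty _)
      rw [h1, h2]
      intro N N'
      simp
    | insert c S hc ih =>
      intro T T' hT hT' hre h h'
      -- the decomposition of one matrix
      have dec : ∀ T : Matrix D D ℂ, BlkC τ T → ∃ (T1 : Matrix D D ℂ)
          (S1 : Matrix {a // τ a = c} {a // τ a = c} ℂ), T = T1 * inj τ c S1 ∧ BlkC τ T1 ∧
          (∀ a b, T1 a b = if τ a = c then (1 : Matrix D D ℂ) a b else T a b) ∧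
          (∀ a b, S1 a b = T a b) := by
        intro T hT
        obtain ⟨S', hS'⟩ : ∃ S' : Matrix {a // τ a = c} {a // τ a = c} ℂ, ∀ a b, S' a b = T a b :=
          ⟨fun a b => T a b, fun _ _ => rfl⟩
        obtain ⟨T', hT'⟩ : ∃ T' : Matrix D D ℂ, ∀ a b, T' a b =
            if τ a = c then (1 : Matrix D D ℂ) a b else T a b :=
          ⟨fun a b => if τ a = c then (1 : Matrix D D ℂ) a b else T a b, fun _ _ => rfl⟩
        refine ⟨T', S', ?_, ?_, hT', hS'⟩
        · ext a b
          rw [Matrix.mul_apply]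
          by_cases ha : τ a = c
          · rw [Finset.sum_eq_single a]
            · rw [hT', if_pos ha, Matrix.one_apply_eq, one_mul, inj_apply]
              by_cases hb : τ b = c
              · rw [dif_pos ⟨ha, hb⟩, hS']
              · rw [dif_neg (fun h' => hb h'.2),
                  Matrix.one_apply_ne (fun h' : a = b => hb (by rw [← h']; exact ha))]
                exact hT a b (fun h' => hb (by rw [← h']; exact ha))
            · intro a' _ ha'
              rw [hT', if_pos ha, Matrix.one_apply_ne (Ne.symm ha'), zero_mul]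
            · intro h'; exact absurd (Finset.mem_univ a) h'
          · rw [Finset.sum_eq_single b]
            · rw [hT', if_neg ha, inj_apply]
              by_cases hb : τ b = c
              · rw [dif_pos ⟨hb, hb⟩, hT a b (fun h' => ha (h'.trans hb)), zero_mul]
              · rw [dif_neg (fun h' => hb h'.2), Matrix.one_apply_eq, mul_one]
            · intro a' _ ha'
              rw [hT', if_neg ha]
              by_cases hc' : τ a = τ a'
              · rw [inj_apply, dif_neg (fun h' => ha (hc'.trans h'.1)), Matrix.one_apply_ne ha',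
                  mul_zero]
              · rw [hT a a' hc', zero_mul]
            · intro h'; exact absurd (Finset.mem_univ b) h'
        · intro a b hab
          rw [hT']
          by_cases ha : τ a = c
          · rw [if_pos ha]
            exact Matrix.one_apply_ne (fun h' => hab (by rw [h']))
          · rw [if_neg ha]
            exact hT a b hab
      obtain ⟨T1, S1, e1, b1, t1, s1⟩ := dec T hT
      obtain ⟨T1', S1', e1', b1', t1', s1'⟩ := dec T' hT'
      have hn1 : Nice P T1 T1' := by
        refine ih T1 T1' b1 b1' ?_ ?_ ?_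
        · intro a b ha
          rw [t1, t1']
          split_ifs
          · rfl
          · exact hre a b ha
        · intro a b ha
          rw [t1]
          by_cases ha' : τ a = c
          · rw [if_pos ha']
          · rw [if_neg ha']
            exact h a b (by rw [Finset.mem_insert, not_or]; exact ⟨ha', ha⟩)
        · intro a b ha
          rw [t1']
          by_cases ha' : τ a = c
          · rw [if_pos ha']
          · rw [if_neg ha']
            exact h' a b (by rw [Finset.mem_insert, not_or]; exact ⟨ha', ha⟩)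
      have hn2 : Nice P (inj τ c S1) (inj τ c S1') := by
        by_cases hcm : o.cm c
        · have := (nice_inj_left hf hP hP' c hcm S1).mul (nice_inj_right hf hP hP' c hcm S1')
          rwa [Matrix.mul_one, Matrix.one_mul] at this
        · have : S1' = S1 := by
            ext a b
            rw [s1, s1']
            exact hre a b (by rw [a.2]; exact hcm)
          rw [this]
          exact nice_inj_re hf hP hP' c S1
      rw [e1, e1']
      exact hn1.mul hn2
  exact key (Finset.univ.image τ) T T' hT hT' hre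
    (fun a b ha => absurd (Finset.mem_image_of_mem τ (Finset.mem_univ a)) ha)
    (fun a b ha => absurd (Finset.mem_image_of_mem τ (Finset.mem_univ a)) ha)

end nice

end Pool.Agent.LibAC84H
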