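import Pool.Agent.LibAC84H.Equi

/-!
Cycles with trivial intersection numbers: the algebra, with entries in orders of complex numbers.
-/

open MvPolynomial Matrix
open scoped ComplexConjugate Classical

set_option linter.unusedSectionVars false

namespace Pool.Agent.LibAC84H

variable {C R D : Type} [DecidableEq C] [Fintype R] [DecidableEq R] [Fintype D] [DecidableEq D]

/-! ### the generic block matrices -/

section gen
variable (𝕜 : Type) [CommRing 𝕜] (o : Ord C) (τ : D → C)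

/-- the generic block matrix -/
noncomputable def Ymat : Matrix D D (MvPolynomial (Vr D D) 𝕜) :=
  fun a b => if τ a = τ b then X (Sum.inl (a, b)) else 0

/-- the second generic block matrix; it is the same in the real blocks -/
noncomputable def Ymat' : Matrix D D (MvPolynomial (Vr D D) 𝕜) :=
  fun a b => if τ a = τ b then (if o.cm (τ a) then X (Sum.inr (a, b)) else X (Sum.inl (a, b)))
    else 0

/-- the product of the determinants -/
noncomputable def Hpol : MvPolynomial (Vr D D) 𝕜 := (Ymat 𝕜 τ).det * (Ymat' 𝕜 o τ).det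

/-- the second determinant times the adjugate of the first matrix -/
noncomputable def Kpol (a b : D) : MvPolynomial (Vr D D) 𝕜 :=
  (Ymat' 𝕜 o τ).det * (Ymat 𝕜 τ).adjugate a b

end gen

theorem mulVec_eq {K : Type} [NonUnitalNonAssocSemiring K] (A : Matrix D D K) (v : D → K) (a : D) :
    (A *ᵥ v) a = ∑ b, A a b * v b := rfl

section map
variable {𝕜 𝕂 : Type} [CommRing 𝕜] [CommRing 𝕂] (f : 𝕜 →+* 𝕂) (o : Ord C) (τ : D → C)

theorem Ymat_pos {a b : D} (h : τ a = τ b) : Ymat 𝕜 τ a b = X (Sum.inl (a, b)) := if_pos h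

theorem Ymat_neg {a b : D} (h : τ a ≠ τ b) : Ymat 𝕜 τ a b = 0 := if_neg h

theorem map_Ymat : (Ymat 𝕜 τ).map (MvPolynomial.map f) = Ymat 𝕂 τ := by
  ext1 a b
  rw [Matrix.map_apply, Ymat, Ymat]
  split_ifs <;> simp

theorem map_Ymat' : (Ymat' 𝕜 o τ).map (MvPolynomial.map f) = Ymat' 𝕂 o τ := by
  ext1 a b
  rw [Matrix.map_apply, Ymat', Ymat']
  split_ifs <;> simp

theorem map_Hpol : MvPolynomial.map f (Hpol 𝕜 o τ) = Hpol 𝕂 o τ := by
  rw [Hpol, Hpol, map_mul, RingHom.map_det, RingHom.map_det, RingHom.mapMatrix_apply,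
    RingHom.mapMatrix_apply, map_Ymat, map_Ymat']

theorem map_Kpol (a b : D) : MvPolynomial.map f (Kpol 𝕜 o τ a b) = Kpol 𝕂 o τ a b := by
  rw [Kpol, Kpol, map_mul, RingHom.map_det, RingHom.mapMatrix_apply, map_Ymat', ← map_Ymat f,
    ← RingHom.mapMatrix_apply, ← RingHom.map_adjugate, RingHom.mapMatrix_apply, Matrix.map_apply]

end map

section eval
variable (o : Ord C) (τ : D → C) (Y Y' : Matrix D D ℂ)

theorem ev_Ymat : (Ymat ℂ τ).map (eval (pt2 Y Y')) = prC τ τ Y := by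
  ext1 a b
  rw [Matrix.map_apply, Ymat, prC]
  split_ifs <;> simp [pt2]

theorem ev_Ymat' : (Ymat' ℂ o τ).map (eval (pt2 Y Y')) = mx o τ τ Y Y' := by
  ext1 a b
  rw [Matrix.map_apply, Ymat', mx]
  split_ifs <;> simp [pt2]

theorem eval_det : eval (pt2 Y Y') (Ymat ℂ τ).det = (prC τ τ Y).det := by
  rw [RingHom.map_det, RingHom.mapMatrix_apply, ev_Ymat]

theorem eval_det' : eval (pt2 Y Y') (Ymat' ℂ o τ).det = (mx o τ τ Y Y').det := by
  rw [RingHom.map_det, RingHom.mapMatrix_apply, ev_Ymat']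

theorem eval_adjugate (a b : D) :
    eval (pt2 Y Y') ((Ymat ℂ τ).adjugate a b) = (prC τ τ Y).adjugate a b := by
  rw [← ev_Ymat τ Y Y', ← RingHom.mapMatrix_apply, ← RingHom.map_adjugate, RingHom.mapMatrix_apply,
    Matrix.map_apply]

theorem eval_H : eval (pt2 Y Y') (Hpol ℂ o τ) = (prC τ τ Y).det * (mx o τ τ Y Y').det := by
  rw [Hpol, map_mul, eval_det, eval_det']

theorem eval_K (a b : D) : eval (pt2 Y Y') (Kpol ℂ o τ a b) =
    (mx o τ τ Y Y').det * (prC τ τ Y).adjugate a b := by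
  rw [Kpol, map_mul, eval_adjugate, eval_det']

theorem prC_one : prC τ τ (1 : Matrix D D ℂ) = 1 := by
  ext1 a b
  unfold prC
  split_ifs with h
  · rfl
  · rw [Matrix.one_apply_ne (fun h' => h (by rw [h']))]

theorem mx_one : mx o τ τ (1 : Matrix D D ℂ) 1 = 1 := by
  ext1 a b
  unfold mx
  split_ifs with h
  · rfl
  · rfl
  · rw [Matrix.one_apply_ne (fun h' => h (by rw [h']))]

theorem det_ne_zero : (Ymat ℂ τ).det ≠ 0 := by
  intro h
  have h1 := eval_det τ (1 : Matrix D D ℂ) 1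
  rw [h, map_zero, prC_one, det_one] at h1
  exact zero_ne_one h1

theorem Hpol_ne_zero : Hpol ℚ o τ ≠ 0 := by
  intro h
  have h1 := eval_H o τ (1 : Matrix D D ℂ) 1
  rw [← map_Hpol (algebraMap ℚ ℂ), h, map_zero, map_zero, prC_one, mx_one, det_one, mul_one] at h1
  exact zero_ne_one h1

end eval

/-- the matrix of the substitution `(M, M') = (N Yᵀ, N' Y'ᵀ)` -/
def subA (N N' : Matrix R D ℂ) : Vr R D → Vr D D → ℂ :=
  Sum.elim (fun p => Sum.elim (fun q => if q.1 = p.2 then N p.1 q.2 else 0) (fun _ => 0))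
    (fun p => Sum.elim (fun _ => 0) (fun q => if q.1 = p.2 then N' p.1 q.2 else 0))

theorem eval_sub (N N' : Matrix R D ℂ) (Y Y' : Matrix D D ℂ) (P : MvPolynomial (Vr R D) ℂ) :
    eval (pt2 Y Y') (sub (subA N N') P) = ev (N * Yᵀ) (N' * Y'ᵀ) P := by
  unfold sub ev
  rw [eval_aeval']
  congr 1
  congr 1
  funext s
  rcases s with ⟨i, a⟩ | ⟨i, a⟩
  · rw [map_sum]
    simp only [map_mul, eval_C, eval_X, subA, Sum.elim_inl, Fintype.sum_sum_type, Sum.elim_inr,
      zero_mul, Finset.sum_const_zero, add_zero, pt2]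
    rw [Fintype.sum_prod_type, Finset.sum_eq_single a]
    · simp [Matrix.mul_apply]
    · intro a' _ ha'
      simp [ha']
    · intro h; exact absurd (Finset.mem_univ a) h
  · rw [map_sum]
    simp only [map_mul, eval_C, eval_X, subA, Sum.elim_inl, Fintype.sum_sum_type, Sum.elim_inr,
      zero_mul, Finset.sum_const_zero, zero_add, pt2]
    rw [Fintype.sum_prod_type, Finset.sum_eq_single a]
    · simp [Matrix.mul_apply]
    · intro a' _ ha'
      simp [ha']
    · intro h; exact absurd (Finset.mem_univ a) h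

theorem eval_subT (N N' M M' : Matrix R D ℂ) (Q : MvPolynomial (Vr D D) ℂ) :
    ev M M' (sub (fun t s => subA N N' s t) Q) = eval (pt2 (Mᵀ * N) (M'ᵀ * N')) Q := by
  unfold sub ev
  rw [eval_aeval']
  congr 1
  congr 1
  funext s
  rcases s with ⟨a, b⟩ | ⟨a, b⟩
  · rw [map_sum]
    simp only [map_mul, eval_C, eval_X, subA, Sum.elim_inl, Fintype.sum_sum_type, Sum.elim_inr,
      zero_mul, Finset.sum_const_zero, add_zero, pt2]
    rw [Fintype.sum_prod_type, Matrix.mul_apply]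
    refine Finset.sum_congr rfl fun i _ => ?_
    rw [Finset.sum_eq_single a]
    · simp [mul_comm]
    · intro a' _ ha'
      simp [Ne.symm ha']
    · intro h; exact absurd (Finset.mem_univ a) h
  · rw [map_sum]
    simp only [map_mul, eval_C, eval_X, subA, Sum.elim_inl, Fintype.sum_sum_type, Sum.elim_inr,
      zero_mul, Finset.sum_const_zero, zero_add, pt2]
    rw [Fintype.sum_prod_type, Matrix.mul_apply]
    refine Finset.sum_congr rfl fun i _ => ?_
    rw [Finset.sum_eq_single a]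
    · simp [mul_comm]
    · intro a' _ ha'
      simp [Ne.symm ha']
    · intro h; exact absurd (Finset.mem_univ a) h

/-- block matrices over the complex numbers -/
def BlkR (ρ : R → C) (τ : D → C) (N : Matrix R D ℂ) : Prop := ∀ i a, ρ i ≠ τ a → N i a = 0

theorem blkR_toC {o : Ord C} {ρ : R → C} {τ : D → C} {N : Matrix R D (ℤ × ℤ)}
    (hN : Blk o ρ τ N) : BlkR ρ τ (toC o ρ N) := fun i a h => by
  rw [toC, hN.zero h, o.cx_zero]

theorem blkR_cj {ρ : R → C} {τ : D → C} {N : Matrix R D ℂ} (hN : BlkR ρ τ N) :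
    BlkR ρ τ (cj N) := fun i a h => by
  rw [cj_apply, hN i a h, map_zero]

/-- the invariant polynomials -/
def Inv (o : Ord C) (ρ : R → C) (τ : D → C) (P : MvPolynomial (Vr R D) ℂ) : Prop :=
  ∀ N N' : Matrix R D ℂ, ev (prC ρ τ N) (mx o ρ τ N N') P = ev N N' P

/-- the equivariant polynomials -/
def Eqv (o : Ord C) (ρ : R → C) (τ : D → C) (P : MvPolynomial (Vr R D) ℂ) : Prop :=
  ∀ N N' : Matrix R D ℂ, BlkR ρ τ N → BlkR ρ τ N' →
    sub (subA N N') P = MvPolynomial.C (ev N N' P) * Hpol ℂ o τ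

section inv
variable {o : Ord C} {ρ : R → C} {τ : D → C} {P Q : MvPolynomial (Vr R D) ℂ}

theorem ev_add (N N' : Matrix R D ℂ) : ev N N' (P + Q) = ev N N' P + ev N N' Q := map_add _ _ _

theorem ev_sub (N N' : Matrix R D ℂ) : ev N N' (P - Q) = ev N N' P - ev N N' Q := map_sub _ _ _

theorem ev_mul (N N' : Matrix R D ℂ) : ev N N' (P * Q) = ev N N' P * ev N N' Q := map_mul _ _ _

theorem ev_C (N N' : Matrix R D ℂ) (a : ℂ) : ev N N' (MvPolynomial.C a) = a := eval_C _

theorem ev_zero (N N' : Matrix R D ℂ) : ev N N' 0 = 0 := map_zero _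

theorem ev_sum {J : Type} (s : Finset J) (f : J → MvPolynomial (Vr R D) ℂ) (N N' : Matrix R D ℂ) :
    ev N N' (∑ j ∈ s, f j) = ∑ j ∈ s, ev N N' (f j) := map_sum _ _ _

theorem Inv.add (hP : Inv o ρ τ P) (hQ : Inv o ρ τ Q) : Inv o ρ τ (P + Q) := fun N N' => by
  rw [ev_add, ev_add, hP, hQ]

theorem Inv.sub (hP : Inv o ρ τ P) (hQ : Inv o ρ τ Q) : Inv o ρ τ (P - Q) := fun N N' => by
  rw [ev_sub, ev_sub, hP, hQ]

theorem Inv.mul (hP : Inv o ρ τ P) (hQ : Inv o ρ τ Q) : Inv o ρ τ (P * Q) := fun N N' => by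
  rw [ev_mul, ev_mul, hP, hQ]

theorem inv_C (a : ℂ) : Inv o ρ τ (MvPolynomial.C a) := fun N N' => by
  rw [ev_C, ev_C]

theorem Inv.zero : Inv o ρ τ 0 := fun N N' => by rw [ev_zero, ev_zero]

theorem Inv.sum {J : Type} (s : Finset J) {f : J → MvPolynomial (Vr R D) ℂ}
    (h : ∀ j ∈ s, Inv o ρ τ (f j)) : Inv o ρ τ (∑ j ∈ s, f j) := fun N N' => by
  rw [ev_sum, ev_sum]
  exact Finset.sum_congr rfl fun j hj => h j hj N N'

theorem Inv.X {i : R} {a : D} (h : ρ i = τ a) : Inv o ρ τ (X (Sum.inl (i, a))) := fun N N' => by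
  simp only [ev, eval_X, pt2, Sum.elim_inl]
  exact prC_pos _ h

theorem Eqv.add (hP : Eqv o ρ τ P) (hQ : Eqv o ρ τ Q) : Eqv o ρ τ (P + Q) :=
  fun N N' h h' => by
    rw [map_add, hP N N' h h', hQ N N' h h', ev_add, map_add, add_mul]

theorem Eqv.sub (hP : Eqv o ρ τ P) (hQ : Eqv o ρ τ Q) : Eqv o ρ τ (P - Q) :=
  fun N N' h h' => by
    rw [map_sub, hP N N' h h', hQ N N' h h', ev_sub, map_sub, sub_mul]

theorem sub_C {σ τ' : Type} [DecidableEq σ] [DecidableEq τ'] [Fintype σ] [Fintype τ']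
    (A : σ → τ' → ℂ) (a : ℂ) : LibAC84H.sub A (MvPolynomial.C a) = MvPolynomial.C a := by
  unfold LibAC84H.sub
  rw [algHom_C]
  rfl

theorem Eqv.smul (a : ℂ) (hP : Eqv o ρ τ P) : Eqv o ρ τ (MvPolynomial.C a * P) :=
  fun N N' h h' => by
    rw [map_mul, hP N N' h h', ev_mul, ev_C, map_mul, sub_C, mul_assoc]

/-- an invariant polynomial which vanishes at the integral points is zero -/
theorem zero_of_blk (hP : Inv o ρ τ P)
    (h : ∀ M : Matrix R D (ℤ × ℤ), Blk o ρ τ M → ev (toC o ρ M) (cj (toC o ρ M)) P = 0) :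
    P = 0 := by
  refine MvPolynomial.funext fun z => ?_
  obtain ⟨N, N', rfl⟩ : ∃ N N' : Matrix R D ℂ, z = pt2 N N' := by
    refine ⟨fun i a => z (Sum.inl (i, a)), fun i a => z (Sum.inr (i, a)), ?_⟩
    funext s
    rcases s with s | s <;> rfl
  rw [map_zero]
  change ev N N' P = 0
  set ω : R × D → ℂ := fun p => o.om (ρ p.1) with hω
  obtain ⟨N'', hN''⟩ : ∃ N'' : Matrix R D ℂ, ∀ i a', N'' i a' =
      mx o ρ τ N N' i a' + if ρ i = τ a' then 0 else N i a' :=
    ⟨fun i a' => mx o ρ τ N N' i a' + if ρ i = τ a' then 0 else N i a', fun _ _ => rfl⟩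
  have hfin := dens ω P (by
    intro x y
    obtain ⟨A, hA⟩ : ∃ A : Matrix R D (ℤ × ℤ), ∀ i a, A i a = (x (i, a), y (i, a)) :=
      ⟨fun i a => (x (i, a), y (i, a)), fun _ _ => rfl⟩
    have e1 : (Sum.elim (fun i => (x i : ℂ) + y i * ω i) (fun i => (x i : ℂ) + y i * conj (ω i)) :
        Vr R D → ℂ) = pt2 (toC' o ρ A) (cj (toC' o ρ A)) := by
      funext s
      rcases s with ⟨i, a'⟩ | ⟨i, a'⟩
      · simp [hω, toC', hA, pt2]
      · simp [hω, toC', hA, cj, pt2]
    rw [e1]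
    set B := pri o ρ τ A with hB
    have hBB : Blk o ρ τ B := blk_pri A
    have hAB : ∀ i a', ρ i = τ a' → toC' o ρ A i a' = toC o ρ B i a' := by
      intro i a' h1
      have := congrFun (congrFun (prC_toC' (o := o) (ρ := ρ) (τ := τ) A) i) a'
      rw [prC_pos _ h1] at this
      exact this
    have h2 := ev_of_prC hP (toC' o ρ A) (cj (toC' o ρ A)) B hBB hAB
      (fun i a' h1 _ => by rw [cj_apply, hAB i a' h1])
    rw [h B hBB] at h2
    exact h2)
    (fun p => N p.1 p.2) (fun p => N'' p.1 p.2) (by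
      rintro ⟨i, a'⟩ hs
      have hc := (o.om_im _).1 hs
      simp only
      rw [hN'']
      by_cases h1 : ρ i = τ a'
      · rw [mx_re _ _ h1 hc, if_pos h1, add_zero]
      · rw [mx_neg _ _ h1, if_neg h1, zero_add])
  have hmx : mx o ρ τ N N'' = mx o ρ τ N N' := by
    funext i a'
    by_cases h1 : ρ i = τ a'
    · by_cases hc : o.cm (ρ i)
      · rw [mx_cm _ _ h1 hc, mx_cm _ _ h1 hc, hN'', mx_cm _ _ h1 hc, if_pos h1, add_zero]
      · rw [mx_re _ _ h1 hc, mx_re _ _ h1 hc]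
    · rw [mx_neg _ _ h1, mx_neg _ _ h1]
  rw [← hP, ← hmx, hP]
  exact hfin

theorem prC_mul_transpose {N : Matrix R D ℂ} (hN : BlkR ρ τ N) (Y : Matrix D D ℂ) :
    prC ρ τ (N * Yᵀ) = N * (prC τ τ Y)ᵀ := by
  ext1 i a
  rw [Matrix.mul_apply]
  by_cases h : ρ i = τ a
  · rw [prC_pos _ h, Matrix.mul_apply]
    refine Finset.sum_congr rfl fun b _ => ?_
    by_cases h1 : ρ i = τ b
    · rw [transpose_apply, transpose_apply, prC_pos _ (h.symm.trans h1)]
    · rw [hN i b h1, zero_mul, zero_mul]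
  · rw [prC_neg _ h]
    symm
    refine Finset.sum_eq_zero fun b _ => ?_
    by_cases h1 : ρ i = τ b
    · rw [transpose_apply, prC_neg _ (fun h2 => h (h1.trans h2.symm)), mul_zero]
    · rw [hN i b h1, zero_mul]

theorem mx_mul_transpose {N N' : Matrix R D ℂ} (hN : BlkR ρ τ N) (hN' : BlkR ρ τ N')
    (Y Y' : Matrix D D ℂ) : mx o ρ τ (N * Yᵀ) (N' * Y'ᵀ) =
      mx o ρ τ (N * (prC τ τ Y)ᵀ) (N' * (mx o τ τ Y Y')ᵀ) := by
  ext1 i a
  by_cases h : ρ i = τ a
  · by_cases hc : o.cm (ρ i)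
    · rw [mx_cm _ _ h hc, mx_cm _ _ h hc, Matrix.mul_apply, Matrix.mul_apply]
      refine Finset.sum_congr rfl fun b _ => ?_
      by_cases h1 : ρ i = τ b
      · rw [transpose_apply, transpose_apply, mx_cm _ _ (h.symm.trans h1) (h ▸ hc)]
      · rw [hN' i b h1, zero_mul, zero_mul]
    · rw [mx_re _ _ h hc, mx_re _ _ h hc, ← prC_mul_transpose hN, prC_pos _ h]
  · rw [mx_neg _ _ h, mx_neg _ _ h]

theorem prC_transpose_mul {N : Matrix R D ℂ} (hN : BlkR ρ τ N) (M : Matrix R D ℂ) :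
    prC τ τ (Mᵀ * N) = (prC ρ τ M)ᵀ * N := by
  ext1 a b
  rw [Matrix.mul_apply]
  by_cases h : τ a = τ b
  · rw [prC_pos _ h, Matrix.mul_apply]
    refine Finset.sum_congr rfl fun i _ => ?_
    by_cases h1 : ρ i = τ b
    · rw [transpose_apply, transpose_apply, prC_pos _ (h1.trans h.symm)]
    · rw [hN i b h1, mul_zero, mul_zero]
  · rw [prC_neg _ h]
    symm
    refine Finset.sum_eq_zero fun i _ => ?_
    by_cases h1 : ρ i = τ b
    · rw [transpose_apply, prC_neg _ (fun h2 => h (h2.symm.trans h1)), zero_mul]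
    · rw [hN i b h1, mul_zero]

theorem prC_prC (M : Matrix R D ℂ) : prC ρ τ (prC ρ τ M) = prC ρ τ M := by
  ext1 i a
  by_cases h : ρ i = τ a
  · rw [prC_pos _ h]
  · rw [prC_neg _ h, prC_neg _ h]

theorem mx_transpose_mul {N N' : Matrix R D ℂ} (hN : BlkR ρ τ N) (hN' : BlkR ρ τ N')
    (M M' : Matrix R D ℂ) : mx o τ τ (Mᵀ * N) (M'ᵀ * N') =
      mx o τ τ ((prC ρ τ M)ᵀ * N) ((mx o ρ τ M M')ᵀ * N') := by
  ext1 a b
  by_cases h : τ a = τ b
  · by_cases hc : o.cm (τ a)
    · rw [mx_cm _ _ h hc, mx_cm _ _ h hc, Matrix.mul_apply, Matrix.mul_apply]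
      refine Finset.sum_congr rfl fun i _ => ?_
      by_cases h1 : ρ i = τ b
      · rw [transpose_apply, transpose_apply, mx_cm _ _ (h1.trans h.symm)
          (by rw [h1, ← h]; exact hc)]
      · rw [hN' i b h1, mul_zero, mul_zero]
    · rw [mx_re _ _ h hc, mx_re _ _ h hc, ← prC_transpose_mul hN, prC_pos _ h]
  · rw [mx_neg _ _ h, mx_neg _ _ h]

/-- the invariance of the substituted polynomials -/
theorem Inv.subT {N N' : Matrix R D ℂ} (hN : BlkR ρ τ N) (hN' : BlkR ρ τ N')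
    {Q : MvPolynomial (Vr D D) ℂ}
    (hQ : ∀ Y Y', eval (pt2 (prC τ τ Y) (mx o τ τ Y Y')) Q = eval (pt2 Y Y') Q) :
    Inv o ρ τ (LibAC84H.sub (fun t s => subA N N' s t) Q) := by
  intro M M'
  rw [eval_subT, eval_subT, ← hQ, ← hQ (Mᵀ * N), mx_transpose_mul hN hN' M M',
    ← prC_transpose_mul hN M, prC_prC]

theorem mx_mx (Y Y' : Matrix D D ℂ) :
    mx o τ τ (prC τ τ Y) (mx o τ τ Y Y') = mx o τ τ Y Y' := by
  ext1 a b
  by_cases h : τ a = τ b
  · by_cases hc : o.cm (τ a)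
    · rw [mx_cm _ _ h hc]
    · rw [mx_re _ _ h hc, mx_re _ _ h hc, prC_pos _ h]
  · rw [mx_neg _ _ h, mx_neg _ _ h]

theorem inv_H (Y Y' : Matrix D D ℂ) :
    eval (pt2 (prC τ τ Y) (mx o τ τ Y Y')) (Hpol ℂ o τ) = eval (pt2 Y Y') (Hpol ℂ o τ) := by
  rw [eval_H, eval_H, prC_prC, mx_mx]

theorem inv_K (a b : D) (Y Y' : Matrix D D ℂ) :
    eval (pt2 (prC τ τ Y) (mx o τ τ Y Y')) (Kpol ℂ o τ a b) =
      eval (pt2 Y Y') (Kpol ℂ o τ a b) := by
  rw [eval_K, eval_K, prC_prC, mx_mx]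

end inv

/-! ### the main formulas -/

section main
variable {o : Ord C} {ρ : R → C} {τ : D → C} {P : MvPolynomial (Vr R D) ℂ}

theorem Good.eqv {f : Matrix R D (ℤ × ℤ) → ℚ} (hf : Good o ρ τ f)
    (hP : ∀ N : Matrix R D (ℤ × ℤ), Blk o ρ τ N →
      ev (toC o ρ N) (cj (toC o ρ N)) P = ((f N : ℚ) : ℂ))
    (hP' : Inv o ρ τ P) : Eqv o ρ τ P := by
  intro N N' hN hN'
  refine MvPolynomial.funext fun y => ?_
  obtain ⟨Y, Y', rfl⟩ : ∃ Y Y' : Matrix D D ℂ, y = pt2 Y Y' := by
    refine ⟨fun i a => y (Sum.inl (i, a)), fun i a => y (Sum.inr (i, a)), ?_⟩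
    funext s
    rcases s with s | s <;> rfl
  rw [eval_sub, ← hP', prC_mul_transpose hN, mx_mul_transpose hN hN', map_mul, eval_C, eval_H]
  have h1 : ev (N * (prC τ τ Y)ᵀ) (mx o ρ τ (N * (prC τ τ Y)ᵀ) (N' * (mx o τ τ Y Y')ᵀ)) P =
      ev (N * (prC τ τ Y)ᵀ) (N' * (mx o τ τ Y Y')ᵀ) P := by
    rw [← hP' (N * (prC τ τ Y)ᵀ) (N' * (mx o τ τ Y Y')ᵀ)]
    congr 1
    rw [← prC_mul_transpose hN, prC_prC]
  rw [h1, nice_of_blk hf hP hP' (prC τ τ Y)ᵀ (mx o τ τ Y Y')ᵀ, det_transpose, det_transpose]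
  · ring
  · intro a b h
    rw [transpose_apply, prC_neg _ (Ne.symm h)]
  · intro a b h
    rw [transpose_apply, mx_neg _ _ (Ne.symm h)]
  · intro a b h
    rw [transpose_apply, transpose_apply]
    by_cases h1 : τ b = τ a
    · rw [mx_re _ _ h1 (by rw [h1]; exact h), prC_pos _ h1]
    · rw [mx_neg _ _ h1, prC_neg _ h1]

theorem Eqv.fis_H (hP : Eqv o ρ τ P) (N N' : Matrix R D ℂ) (hN : BlkR ρ τ N)
    (hN' : BlkR ρ τ N') :
    fis P (LibAC84H.sub (fun t s => subA N N' s t) (Hpol ℂ o τ)) =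
      ev N N' P * fis (Hpol ℂ o τ) (Hpol ℂ o τ) := by
  rw [← fis_sub, hP N N' hN hN', ← smul_eq_C_mul, fis_smul_left]

end main

/-! ### the Abel-Jacobi part -/

/-- the coefficients of the product of the two determinants, as polynomials in `M` -/
noncomputable def Bpol (o : Ord C) (τ : D → C) (c : C) (N N' : Matrix R D ℂ) (i k : R) :
    MvPolynomial (Vr R D) ℂ :=
  (if i = k then sub (fun t s => subA N N' s t) (Hpol ℂ o τ) else 0) -
    ∑ b, ∑ a, if τ b = c then
      MvPolynomial.C (N i a) * (X (Sum.inl (k, b)) *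
        sub (fun t s => subA N N' s t) (Kpol ℂ o τ a b)) else 0

/-- the constant -/
noncomputable def kap (o : Ord C) (τ : D → C) (c : C) : ℚ :=
  fis (Hpol ℚ o τ) (Hpol ℚ o τ) +
    ∑ b, ∑ a, if τ b = c then fis (Kpol ℚ o τ a b) (Kpol ℚ o τ a b) else 0

theorem kap_pos (o : Ord C) (τ : D → C) (c : C) : 0 < kap o τ c := by
  refine add_pos_of_pos_of_nonneg (fis_self_pos _ (Hpol_ne_zero o τ)) ?_
  refine Finset.sum_nonneg fun b _ => Finset.sum_nonneg fun a _ => ?_
  split_ifs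
  · exact fis_self_nonneg _
  · exact le_rfl

theorem kap_eq (o : Ord C) (τ : D → C) (c : C) : ((kap o τ c : ℚ) : ℂ) =
    fis (Hpol ℂ o τ) (Hpol ℂ o τ) +
      ∑ b, ∑ a, if τ b = c then fis (Kpol ℂ o τ a b) (Kpol ℂ o τ a b) else 0 := by
  have h1 : ∀ P : MvPolynomial (Vr D D) ℚ, ((fis P P : ℚ) : ℂ) =
      fis (MvPolynomial.map (algebraMap ℚ ℂ) P) (MvPolynomial.map (algebraMap ℚ ℂ) P) := by
    intro P
    rw [fis_map]
    rfl
  rw [kap]
  push_cast
  rw [h1, map_Hpol]
  congr 1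
  refine Finset.sum_congr rfl fun b _ => Finset.sum_congr rfl fun a _ => ?_
  by_cases h : τ b = c
  · rw [if_pos h, if_pos h, h1, map_Kpol]
  · rw [if_neg h, if_neg h, Rat.cast_zero]

section AJ
variable {o : Ord C} {ρ : R → C} {τ : D → C} {c : C} {P : R → MvPolynomial (Vr R D) ℂ}
  (hP : ∀ i, Eqv o ρ τ (P i)) (h0 : ∀ i, ρ i ≠ c → P i = 0)
  (hrel : ∀ a, τ a = c → ∑ i, X (Sum.inl (i, a)) * P i = 0)
include hP h0 hrel

theorem Z_eq (N N' : Matrix R D ℂ) (hN : BlkR ρ τ N) (hN' : BlkR ρ τ N') (k : R) (b : D)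
    (hb : τ b = c) (a : D) :
    ∑ i, MvPolynomial.C (N i a) * sub (subA N N') (pderiv (Sum.inl (k, b)) (P i)) =
      - (MvPolynomial.C (ev N N' (P k)) * Kpol ℂ o τ a b) := by
  set Z : D → MvPolynomial (Vr D D) ℂ := fun a =>
    ∑ i, MvPolynomial.C (N i a) * sub (subA N N') (pderiv (Sum.inl (k, b)) (P i)) with hZ
  have hZ0 : ∀ a, τ a ≠ c → Z a = 0 := by
    intro a ha
    rw [hZ]
    refine Finset.sum_eq_zero fun i _ => ?_
    by_cases hi : ρ i = c
    · rw [hN i a (fun h => ha (h.symm.trans hi)), map_zero, zero_mul]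
    · rw [h0 i hi, map_zero, map_zero, mul_zero]
  have hYZ : ∀ a, (Ymat ℂ τ *ᵥ Z) a =
      if a = b then - (MvPolynomial.C (ev N N' (P k)) * Hpol ℂ o τ) else 0 := by
    intro a
    by_cases ha : τ a = c
    · have h1 := congrArg (fun Q => sub (subA N N') (pderiv (Sum.inl (k, b)) Q)) (hrel a ha)
      simp only [map_sum, map_zero] at h1
      have h2 : ∀ i, sub (subA N N') (pderiv (Sum.inl (k, b)) (X (Sum.inl (i, a)) * P i)) =
          (if i = k then (if a = b then sub (subA N N') (P k) else 0) else 0) +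
            ∑ b', MvPolynomial.C (N i b') * X (Sum.inl (a, b')) *
              sub (subA N N') (pderiv (Sum.inl (k, b)) (P i)) := by
        intro i
        rw [Derivation.leibniz, smul_eq_mul, smul_eq_mul, map_add, map_mul, map_mul, add_comm]
        congr 1
        · by_cases hi : i = k
          · subst hi
            rw [if_pos rfl]
            by_cases hab : a = b
            · subst hab
              rw [pderiv_X_self, map_one, mul_one, if_pos rfl]
            · rw [if_neg hab, pderiv_X_of_ne, map_zero, mul_zero]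
              intro h
              exact hab (Prod.ext_iff.1 (Sum.inl.inj h)).2
          · rw [if_neg hi, pderiv_X_of_ne, map_zero, mul_zero]
            intro h
            exact hi (Prod.ext_iff.1 (Sum.inl.inj h)).1
        · rw [sub_X, Fintype.sum_sum_type]
          have e0 : ∑ q : D × D, MvPolynomial.C (subA N N' (Sum.inl (i, a)) (Sum.inr q)) *
              (X (Sum.inr q) : MvPolynomial (Vr D D) ℂ) = 0 := by
            refine Finset.sum_eq_zero fun q _ => ?_
            simp [subA]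
          rw [e0, add_zero, Fintype.sum_prod_type, Finset.sum_eq_single a, Finset.sum_mul]
          · refine Finset.sum_congr rfl fun b' _ => ?_
            simp [subA]
          · intro a' _ ha'
            refine Finset.sum_eq_zero fun b' _ => ?_
            simp [subA, ha']
          · intro h; exact absurd (Finset.mem_univ a) h
      rw [Finset.sum_congr rfl fun i _ => h2 i, Finset.sum_add_distrib,
        Finset.sum_ite_eq' Finset.univ k, if_pos (Finset.mem_univ k), Finset.sum_comm] at h1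
      have h3 : (Ymat ℂ τ *ᵥ Z) a =
          ∑ b', ∑ i, MvPolynomial.C (N i b') * X (Sum.inl (a, b')) *
            sub (subA N N') (pderiv (Sum.inl (k, b)) (P i)) := by
        rw [mulVec_eq]
        refine Finset.sum_congr rfl fun b' _ => ?_
        by_cases hb' : τ b' = c
        · rw [Ymat_pos τ (ha.trans hb'.symm), hZ, Finset.mul_sum]
          refine Finset.sum_congr rfl fun i _ => ?_
          ring
        · rw [hZ0 b' hb', mul_zero]
          symm
          refine Finset.sum_eq_zero fun i _ => ?_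
          by_cases hi : ρ i = c
          · rw [hN i b' (fun h => hb' (h.symm.trans hi)), map_zero, zero_mul, zero_mul]
          · rw [h0 i hi, map_zero, map_zero, mul_zero]
      rw [h3]
      by_cases hab : a = b
      · rw [if_pos hab]
        rw [if_pos hab] at h1
        rw [← hP k N N' hN hN']
        exact eq_neg_of_add_eq_zero_right h1
      · rw [if_neg hab]
        rw [if_neg hab, zero_add] at h1
        exact h1
    · rw [if_neg (fun h : a = b => ha (by rw [h]; exact hb))]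
      rw [mulVec_eq]
      refine Finset.sum_eq_zero fun b' _ => ?_
      by_cases hb' : τ b' = c
      · rw [Ymat_neg τ (fun h => ha (h.trans hb')), zero_mul]
      · rw [hZ0 b' hb', mul_zero]
  have hfin : (Ymat ℂ τ).det * Z a =
      (Ymat ℂ τ).det * - (MvPolynomial.C (ev N N' (P k)) * Kpol ℂ o τ a b) := by
    have h1 : (Ymat ℂ τ).adjugate *ᵥ (Ymat ℂ τ *ᵥ Z) = (Ymat ℂ τ).det • Z := by
      rw [Matrix.mulVec_mulVec, Matrix.adjugate_mul, Matrix.smul_mulVec, Matrix.one_mulVec]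
    have h2 := congrFun h1 a
    rw [Pi.smul_apply, smul_eq_mul] at h2
    rw [← h2, mulVec_eq, Finset.sum_eq_single b]
    · rw [hYZ b, if_pos rfl, Kpol, Hpol]
      ring
    · intro b' _ hb'
      rw [hYZ b', if_neg hb', mul_zero]
    · intro h; exact absurd (Finset.mem_univ b) h
  exact mul_left_cancel₀ (det_ne_zero τ) hfin

theorem fis_AJ (N N' : Matrix R D ℂ) (hN : BlkR ρ τ N) (hN' : BlkR ρ τ N') (k : R) :
    ∑ i, fis (P i) (Bpol o τ c N N' i k) = ((kap o τ c : ℚ) : ℂ) * ev N N' (P k) := by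
  have h1 : ∀ i, fis (P i) (Bpol o τ c N N' i k) =
      (if i = k then fis (P k) (sub (fun t s => subA N N' s t) (Hpol ℂ o τ)) else 0) -
        ∑ b, ∑ a, if τ b = c then
          fis (MvPolynomial.C (N i a) * sub (subA N N') (pderiv (Sum.inl (k, b)) (P i)))
            (Kpol ℂ o τ a b) else 0 := by
    intro i
    rw [Bpol, fis_sub_right]
    congr 1
    · by_cases hi : i = k
      · subst hi
        rw [if_pos rfl, if_pos rfl]
      · rw [if_neg hi, if_neg hi, fis_zero_right]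
    · rw [fis_sum_right]
      refine Finset.sum_congr rfl fun b _ => ?_
      rw [fis_sum_right]
      refine Finset.sum_congr rfl fun a _ => ?_
      by_cases hb : τ b = c
      · rw [if_pos hb, if_pos hb, ← smul_eq_C_mul, fis_smul_right, fis_mul_X, ← fis_sub,
          ← smul_eq_C_mul, fis_smul_left]
      · rw [if_neg hb, if_neg hb, fis_zero_right]
  rw [Finset.sum_congr rfl fun i _ => h1 i, Finset.sum_sub_distrib,
    Finset.sum_ite_eq' Finset.univ k, if_pos (Finset.mem_univ k), Finset.sum_comm,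
    (hP k).fis_H N N' hN hN', kap_eq, add_mul, Finset.sum_mul]
  have h2 : ∀ b, ∑ i, ∑ a, (if τ b = c then
      fis (MvPolynomial.C (N i a) * sub (subA N N') (pderiv (Sum.inl (k, b)) (P i)))
        (Kpol ℂ o τ a b) else 0) =
      - ((∑ a, if τ b = c then fis (Kpol ℂ o τ a b) (Kpol ℂ o τ a b) else 0) *
        ev N N' (P k)) := by
    intro b
    rw [Finset.sum_comm, Finset.sum_mul, ← Finset.sum_neg_distrib]
    refine Finset.sum_congr rfl fun a _ => ?_
    by_cases hb : τ b = c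
    · simp only [if_pos hb]
      rw [← fis_sum_left, Z_eq hP h0 hrel N N' hN hN' k b hb a, ← smul_eq_C_mul, ← neg_smul,
        fis_smul_left]
      ring
    · simp only [if_neg hb]
      simp
  rw [Finset.sum_congr rfl fun b _ => h2 b, Finset.sum_neg_distrib]
  ring

end AJ

/-! ### functionals -/

theorem exists_hom {H : Type} [AddCommGroup H] (x : H) (hx : ¬ IsOfFinAddOrder x) :
    ∃ μ : H →+ ℚ, μ x ≠ 0 := by
  have hinj : Function.Injective (zmultiplesHom H x) := by
    rw [injective_iff_map_eq_zero]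
    intro n hn
    by_contra h
    exact hx (isOfFinAddOrder_iff_zsmul_eq_zero.2 ⟨n, h, hn⟩)
  obtain ⟨μ, hμ⟩ := (Module.Baer.of_divisible ℚ).extension_property_addMonoidHom
    (zmultiplesHom H x) hinj (Int.castAddHom ℚ)
  refine ⟨μ, ?_⟩
  have h1 := DFunLike.congr_fun hμ 1
  simp at h1
  rw [h1]
  exact one_ne_zero

theorem map_torsion {H : Type} [AddCommGroup H] (μ : H →+ ℚ) {x : H} (hx : IsOfFinAddOrder x) :
    μ x = 0 := by
  obtain ⟨n, hn, h⟩ := isOfFinAddOrder_iff_nsmul_eq_zero.1 hx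
  have h1 := congrArg μ h
  rw [map_nsmul, map_zero, nsmul_eq_mul] at h1
  rcases mul_eq_zero.1 h1 with h2 | h2
  · exact absurd (Nat.cast_eq_zero.1 h2) hn.ne'
  · exact h2

end Pool.Agent.LibAC84H
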