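import Mathlib

/-!
Functions with the parallelogram law on an abelian group; an endomorphism `w` with
`w ^ 2 = t w - n`, `t ^ 2 < 4 n`, which multiplies such a function by a constant, multiplies it
by `n`.
-/

namespace Pool.Agent.LibAC84H

theorem exists_polar {A : Type} [AddCommGroup A] (q : A → ℚ)
    (h : ∀ u v, q (u + v) + q (u - v) = 2 * q u + 2 * q v) :
    ∃ B : A → A → ℚ, (∀ u v, B u v = B v u) ∧ (∀ u v, q (u + v) = q u + q v + B u v) ∧
      (∀ u u' v, B (u + u') v = B u v + B u' v) := by
  have h0 : q 0 = 0 := by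
    have := h 0 0
    simp only [add_zero, sub_zero] at this
    linarith
  have hneg : ∀ v, q (-v) = q v := by
    intro v
    have := h 0 v
    simp only [zero_add, zero_sub] at this
    linarith
  refine ⟨fun u v => q (u + v) - q u - q v, fun u v => by simp only [add_comm u v]; ring,
    fun u v => by ring, ?_⟩
  have hJ : ∀ u u' v, (q (u + u' + v) - q (u + u') - q v) + (q (u - u' + v) - q (u - u') - q v) =
      2 * (q (u + v) - q u - q v) := by
    intro u u' v
    have h1 := h (u + v) u'
    have h2 := h (u - v) u'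
    have h3 := h u v
    have h4 := h (u + u') v
    have h5 := h (u - u') v
    have h6 := h u u'
    rw [show u + v + u' = u + u' + v by abel, show u + v - u' = u - u' + v by abel] at h1
    rw [show u - v + u' = u + u' - v by abel, show u - v - u' = u - u' - v by abel] at h2
    linarith
  intro u u' v
  have h1 := hJ u u' v
  have h2 := hJ u' u v
  have h3 := hJ 0 (u - u') v
  rw [zero_add, zero_add, zero_sub, neg_sub, h0] at h3
  rw [show u' + u = u + u' by abel] at h2
  linarith

section w
variable {A : Type} [AddCommGroup A] (q : A → ℚ)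
  (h : ∀ u v, q (u + v) + q (u - v) = 2 * q u + 2 * q v) (w : A →+ A) (t n : ℤ)
  (hw : ∀ u, w (w u) = t • w u - n • u) (hn : t ^ 2 < 4 * n) (δ : ℚ) (hδ : 0 ≤ δ)
  (hq : ∀ u, q (w u) = δ * q u)
include h hw hn hδ hq

theorem quad_scale (x y : ℤ) (u : A) :
    q (x • u + y • w u) = ((x : ℚ) ^ 2 + t * x * y + n * y ^ 2) * q u := by
  obtain ⟨B, hB, hqB, hadd⟩ := exists_polar q h
  have hadd' : ∀ u v v', B u (v + v') = B u v + B u v' := by
    intro u v v'
    rw [hB, hadd, hB v, hB v']
  -- biadditivity as homomorphisms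
  have hz : ∀ (m : ℤ) (u v : A), B (m • u) v = m * B u v := by
    intro m u v
    let f : A →+ ℚ := AddMonoidHom.mk' (fun u => B u v) (fun a b => hadd a b v)
    have := map_zsmul f m u
    rw [zsmul_eq_mul] at this
    exact this
  have hz' : ∀ (m : ℤ) (u v : A), B u (m • v) = m * B u v := by
    intro m u v
    rw [hB, hz, hB]
  have hdiag : ∀ u, B u u = 2 * q u := by
    intro u
    have h1 := hqB u u
    have h2 := h u u
    have h0 : q 0 = 0 := by
      have := h 0 0
      simp only [add_zero, sub_zero] at this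
      linarith
    rw [sub_self, h0] at h2
    linarith
  have hqz : ∀ (m : ℤ) (u : A), q (m • u) = (m : ℚ) ^ 2 * q u := by
    intro m u
    have h1 := hdiag (m • u)
    rw [hz, hz', hdiag] at h1
    linarith
  have hBw : ∀ u v, B (w u) (w v) = δ * B u v := by
    intro u v
    have h1 := hqB (w u) (w v)
    rw [← map_add, hq, hq, hq, hqB u v] at h1
    linarith
  have hsub : ∀ u v v', B u (v - v') = B u v - B u v' := by
    intro u v v'
    have h1 := hadd' u (v - v') v'
    rw [sub_add_cancel] at h1
    linarith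
  -- the relations
  have e1 : (δ + n) * B u (w u) = 2 * t * δ * q u := by
    have h1 := hBw u (w u)
    rw [hw, hsub, hz', hz', hdiag, hq, hB (w u) u] at h1
    linarith
  have e2 : δ ^ 2 * q u = t ^ 2 * δ * q u + n ^ 2 * q u - t * n * B u (w u) := by
    have h1 : q (w (w u)) = δ ^ 2 * q u := by rw [hq, hq]; ring
    have h2 : q (w (w u)) = q (t • w u + (-n) • u) := by
      rw [hw, neg_smul, sub_eq_add_neg]
    rw [h2, hqB, hz, hz', hqz, hqz, hq, hB (w u) u] at h1
    push_cast at h1
    linarith
  have hnpos : (0 : ℚ) < n := by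
    have h1 : 0 < n := by nlinarith [sq_nonneg t]
    exact_mod_cast h1
  have hnQ : (t : ℚ) ^ 2 < 4 * n := by exact_mod_cast hn
  have e3 : (δ - n) * ((δ + n) ^ 2 - t ^ 2 * δ) * q u = 0 := by
    have h1 : (δ + n) * (δ ^ 2 * q u) = (δ + n) * (t ^ 2 * δ * q u + n ^ 2 * q u) -
        t * n * ((δ + n) * B u (w u)) := by rw [e2]; ring
    rw [e1] at h1
    linear_combination h1
  have e4 : (δ + n) ^ 2 - t ^ 2 * δ ≠ 0 := by
    have : 0 < (δ + n) ^ 2 - t ^ 2 * δ := by
      rcases hδ.eq_or_lt with h1 | h1
      · rw [← h1]; nlinarith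
      · nlinarith [sq_nonneg (δ - n), mul_lt_mul_of_pos_right hnQ h1]
    exact this.ne'
  have e5 : (δ - n) * q u = 0 := by
    have h1 : ((δ + n) ^ 2 - t ^ 2 * δ) * ((δ - n) * q u) = 0 := by linear_combination e3
    exact (mul_eq_zero.1 h1).resolve_left e4
  have e6 : B u (w u) = t * q u := by
    have h1 : δ * q u = n * q u := by linarith
    have h2 : (δ + n) * B u (w u) = (δ + n) * (t * q u) := by
      rw [e1]
      linear_combination (t : ℚ) * h1
    exact mul_left_cancel₀ (by linarith : δ + n ≠ 0) h2 |> fun h => h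
  rw [hqB, hqz, hqz, hz, hz', e6, hq]
  have h1 : δ * q u = n * q u := by linarith
  linear_combination (y : ℚ) ^ 2 * h1

end w

end Pool.Agent.LibAC84H
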